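import Mathlib

/-! Generic matrices with a prescribed support and their kernels. -/

set_option autoImplicit false

namespace Pool.Agent.Lib.MP_4a6af7_co.Cyc

open Finset Module

variable {I P : Type} [Fintype I] [DecidableEq I] [Fintype P] [DecidableEq P]

/-- A generic matrix with row supports `A`. -/
structure Gen (A : I → Finset P) (k : Type) [Field k] (x : Matrix I P k) : Prop where
  zero : ∀ j v, v ∉ A j → x j v = 0
  det : ∀ (D : Type) [Fintype D] [DecidableEq D] (r : D → I) (μ : D → P), Function.Injective r →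
    Function.Injective μ → (∀ d, μ d ∈ A (r d)) → (x.submatrix r μ).det ≠ 0

omit [Fintype I] [Fintype P] in
theorem exists_gen (A : I → Finset P) :
    ∃ x : Matrix I P (FractionRing (MvPolynomial (I × P) ℚ)), Gen A _ x := by
  let y : Matrix I P (MvPolynomial (I × P) ℚ) :=
    Matrix.of fun j v => if v ∈ A j then MvPolynomial.X (j, v) else 0
  refine ⟨y.map (algebraMap _ _), fun j v h => by simp [y, h], fun D _ _ r μ hr hμ h => ?_⟩
  classical
  rw [Matrix.submatrix_map, ← RingHom.mapMatrix_apply, ← RingHom.map_det]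
  rw [Ne, FaithfulSMul.algebraMap_eq_zero_iff]
  intro h0
  have h1 := RingHom.map_det
    (MvPolynomial.eval fun p : I × P => if ∃ d, p = (r d, μ d) then (1 : ℚ) else 0)
    (y.submatrix r μ)
  rw [h0, map_zero] at h1
  have h2 : (MvPolynomial.eval fun p : I × P =>
      if ∃ d, p = (r d, μ d) then (1 : ℚ) else 0).mapMatrix (y.submatrix r μ) = 1 := by
    ext d d'
    by_cases hd : d = d'
    · subst hd
      have : ∃ e, r d = r e ∧ μ d = μ e := ⟨d, rfl, rfl⟩
      simp [y, h d, this]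
    · have : ¬ ∃ e, r d = r e ∧ μ d' = μ e := fun ⟨e, e1, e2⟩ => hd ((hr e1).trans (hμ e2).symm)
      rw [Matrix.one_apply_ne hd]
      by_cases h3 : μ d' ∈ A (r d) <;> simp [y, h3, this]
  rw [h2, Matrix.det_one] at h1
  exact zero_ne_one h1

variable {k : Type} [Field k] (A : I → Finset P) (x : Matrix I P k)

/-- Kernel vectors that vanish on the rows of `J`. -/
noncomputable def Kr (J : Finset I) : Submodule k (P → k) :=
  Pi.spanSubset k (((J.biUnion A)ᶜ : Finset P) : Set P) ⊓ LinearMap.ker x.mulVecLin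

open Classical in
/-- Closure of a set of rows. -/
noncomputable def cl (J : Finset I) : Finset I := univ.filter fun j => Kr A x J ≤ Kr A x {j}

variable {A x}

omit [Fintype I] [DecidableEq I] in
theorem mem_Kr {J : Finset I} {c : P → k} :
    c ∈ Kr A x J ↔ (∀ j ∈ J, ∀ v ∈ A j, c v = 0) ∧ x.mulVec c = 0 := by
  simp only [Kr, Submodule.mem_inf, Pi.mem_spanSubset_iff, LinearMap.mem_ker,
    Matrix.mulVecLin_apply, mem_coe, mem_compl, not_not, mem_biUnion]
  exact and_congr_left' ⟨fun h j hj v hv => h v ⟨j, hj, hv⟩, fun h v ⟨j, hj, hv⟩ => h j hj v hv⟩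

omit [Fintype I] [DecidableEq I] in
theorem Kr_anti {J J' : Finset I} (h : J ⊆ J') : Kr A x J' ≤ Kr A x J :=
  fun _ hc => mem_Kr.mpr ⟨fun j hj => (mem_Kr.mp hc).1 j (h hj), (mem_Kr.mp hc).2⟩

omit [Fintype I] in
theorem Kr_union (J J' : Finset I) : Kr A x (J ∪ J') = Kr A x J ⊓ Kr A x J' := by
  ext c
  simp only [Submodule.mem_inf, mem_Kr, mem_union, or_imp, forall_and]
  tauto

omit [DecidableEq I] in
theorem mem_cl {J : Finset I} {j : I} :
    j ∈ cl A x J ↔ ∀ c ∈ Kr A x J, ∀ v ∈ A j, c v = 0 := by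
  simp only [cl, mem_filter, mem_univ, true_and]
  exact ⟨fun h c hc => (mem_Kr.mp (h hc)).1 j (mem_singleton_self j),
    fun h c hc => mem_Kr.mpr ⟨fun i hi => mem_singleton.mp hi ▸ h c hc, (mem_Kr.mp hc).2⟩⟩

omit [DecidableEq I] in
theorem subset_cl (J : Finset I) : J ⊆ cl A x J :=
  fun j hj => mem_cl.mpr fun _ hc => (mem_Kr.mp hc).1 j hj

omit [DecidableEq I] in
theorem Kr_cl (J : Finset I) : Kr A x (cl A x J) = Kr A x J :=
  le_antisymm (Kr_anti (subset_cl J))
    fun c hc => mem_Kr.mpr ⟨fun _ hj => mem_cl.mp hj c hc, (mem_Kr.mp hc).2⟩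

omit [DecidableEq I] in
theorem cl_le {J J' : Finset I} (h : Kr A x J' ≤ Kr A x J) : cl A x J ⊆ cl A x J' :=
  fun _ hj => mem_cl.mpr fun c hc => mem_cl.mp hj c (h hc)

omit [DecidableEq I] in
theorem cl_mono {J J' : Finset I} (h : J ⊆ J') : cl A x J ⊆ cl A x J' := cl_le (Kr_anti h)

omit [DecidableEq I] in
theorem cl_cl (J : Finset I) : cl A x (cl A x J) = cl A x J :=
  Subset.antisymm (cl_le (Kr_cl J).ge) (subset_cl _)

theorem hall_of_bot (hx : Gen A k x) {J : Finset I} (h : Kr A x J = ⊥) (Y : Finset P)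
    (hY : ∀ j ∈ J, ∀ v ∈ A j, v ∉ Y) :
    Y.card ≤ (univ.filter fun j => ∃ v ∈ Y, v ∈ A j).card := by
  have h1 : ∀ c ∈ Pi.spanSubset k (Y : Set P), x.mulVecLin c ∈
      Pi.spanSubset k ((univ.filter fun j => ∃ v ∈ Y, v ∈ A j : Finset I) : Set I) := by
    intro c hc
    rw [Pi.mem_spanSubset_iff] at hc ⊢
    intro j hj
    refine sum_eq_zero fun v _ => ?_
    show x j v * c v = 0
    by_cases hv : v ∈ Y
    · rw [hx.zero j v fun h' => hj (by simpa using ⟨v, hv, h'⟩), zero_mul]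
    · rw [hc v hv, mul_zero]
  have h2 := LinearMap.finrank_le_finrank_of_injective (f := x.mulVecLin.restrict h1) (by
    rw [← LinearMap.ker_eq_bot, eq_bot_iff]
    intro c hc
    have : c.1 ∈ Kr A x J := mem_Kr.mpr ⟨fun j hj v hv =>
      Pi.mem_spanSubset_iff.mp c.2 v (hY j hj v hv), congrArg Subtype.val hc⟩
    rw [h] at this
    exact Subtype.ext this)
  rwa [Pi.dim_spanSubset, Pi.dim_spanSubset, Set.ncard_coe_finset, Set.ncard_coe_finset] at h2

theorem closed_surj (hx : Gen A k x) {G : Finset I} (hG : cl A x G = G) (y : I → k)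
    (hy : ∀ j ∈ G, y j = 0) : ∃ u : P → k, (∀ j ∈ G, ∀ v ∈ A j, u v = 0) ∧ x.mulVec u = y := by
  set W := (G.biUnion A)ᶜ with hW
  have hW' : ∀ v, v ∈ W ↔ ∀ j ∈ G, v ∉ A j := fun v => by simp [hW]
  obtain ⟨D, hD, hmax⟩ := exists_max_image Gᶜ.powerset
    (fun D => (D.card : ℤ) - (D.biUnion A ∩ W).card) ⟨∅, by simp⟩
  rw [mem_powerset] at hD
  have hD0 : D = ∅ := by
    obtain ⟨ν, n1, n2⟩ := (all_card_le_biUnion_card_iff_exists_injective
      (fun v : ↥(D.biUnion A ∩ W) => D.filter fun j => v.1 ∈ A j)).mp (fun s => by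
        set N := s.biUnion fun v : ↥(D.biUnion A ∩ W) => D.filter fun j => v.1 ∈ A j with hN
        have hND : N ⊆ D := biUnion_subset.mpr fun _ _ => filter_subset _ _
        have h1 := hmax (D \ N) (mem_powerset.mpr (sdiff_subset.trans hD))
        have h2 := card_sdiff_add_card_eq_card hND
        have h3 : (D \ N).biUnion A ∩ W ⊆ (D.biUnion A ∩ W) \ s.map (Function.Embedding.subtype _) := by
          intro v hv
          obtain ⟨j, hj, hv'⟩ := mem_biUnion.mp (mem_inter.mp hv).1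
          refine mem_sdiff.mpr ⟨mem_inter.mpr ⟨mem_biUnion.mpr ⟨j, (mem_sdiff.mp hj).1, hv'⟩,
            (mem_inter.mp hv).2⟩, fun h => ?_⟩
          obtain ⟨w, hw, rfl⟩ := mem_map.mp h
          exact (mem_sdiff.mp hj).2 (mem_biUnion.mpr ⟨w, hw, mem_filter.mpr ⟨(mem_sdiff.mp hj).1, hv'⟩⟩)
        have h4 := card_le_card h3
        have h5 := card_sdiff_add_card_eq_card (s := s.map (Function.Embedding.subtype _))
          (t := D.biUnion A ∩ W) (fun v hv => by obtain ⟨w, -, rfl⟩ := mem_map.mp hv; exact w.2)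
        rw [card_map] at h5
        omega)
    refine eq_empty_of_forall_notMem fun j hj => mem_compl.mp (hD hj) (hG ▸ mem_cl.mpr ?_)
    intro c hc v hv
    obtain ⟨c1, c2⟩ := mem_Kr.mp hc
    have h0 : ∀ v, v ∉ W → c v = 0 := fun v hv => by
      rw [hW'] at hv
      push Not at hv
      obtain ⟨i, hi, hv⟩ := hv
      exact c1 i hi v hv
    by_cases hvW : v ∈ W
    swap
    · exact h0 v hvW
    have h1 := Matrix.eq_zero_of_mulVec_eq_zero (hx.det _ ν Subtype.val n1 Subtype.val_injective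
      fun d => (mem_filter.mp (n2 d)).2) (v := fun d => c d.1) (by
        funext d
        have := congrFun c2 (ν d)
        simp only [Matrix.mulVec, dotProduct, Matrix.submatrix_apply, Pi.zero_apply] at this ⊢
        rw [sum_coe_sort (D.biUnion A ∩ W) fun w => x (ν d) w * c w, ← this]
        refine sum_subset (subset_univ _) fun w _ hw => ?_
        by_cases h2 : w ∈ A (ν d)
        · rw [h0 w fun h3 => hw (mem_inter.mpr
            ⟨mem_biUnion.mpr ⟨_, (mem_filter.mp (n2 d)).1, h2⟩, h3⟩), mul_zero]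
        · rw [hx.zero _ _ h2, zero_mul])
    exact congrFun h1 ⟨v, mem_inter.mpr ⟨mem_biUnion.mpr ⟨j, hj, hv⟩, hvW⟩⟩
  obtain ⟨μ, m1, m2⟩ := (all_card_le_biUnion_card_iff_exists_injective
    (fun j : ↥Gᶜ => A j.1 ∩ W)).mp (fun s => by
      have h1 := hmax (s.map (Function.Embedding.subtype _)) (mem_powerset.mpr fun v hv => by
        obtain ⟨w, -, rfl⟩ := mem_map.mp hv; exact w.2)
      have h2 : (s.map (Function.Embedding.subtype _)).biUnion A ∩ W ⊆
          s.biUnion fun j : ↥Gᶜ => A j.1 ∩ W := by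
        intro v hv
        obtain ⟨j, hj, hv'⟩ := mem_biUnion.mp (mem_inter.mp hv).1
        obtain ⟨w, hw, rfl⟩ := mem_map.mp hj
        exact mem_biUnion.mpr ⟨w, hw, mem_inter.mpr ⟨hv', (mem_inter.mp hv).2⟩⟩
      have h3 := card_le_card h2
      simp only [hD0, card_map, card_empty, biUnion_empty, empty_inter] at h1
      omega)
  have hdet := hx.det _ Subtype.val μ Subtype.val_injective m1 fun d => (mem_inter.mp (m2 d)).1
  obtain ⟨w, hw⟩ := (Matrix.mulVec_surjective_iff_isUnit.mpr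
    ((Matrix.isUnit_iff_isUnit_det _).mpr hdet.isUnit)) fun d => y d.1
  refine ⟨fun v => ∑ d, if μ d = v then w d else 0, fun j hj v hv =>
    sum_eq_zero fun d _ => if_neg fun e : μ d = v =>
      (hW' _).mp (mem_inter.mp (m2 d)).2 j hj (e ▸ hv), ?_⟩
  funext j
  have e : x.mulVec (fun v => ∑ d, if μ d = v then w d else 0) j = ∑ d, x j (μ d) * w d := by
    simp only [Matrix.mulVec, dotProduct, mul_sum, mul_ite, mul_zero]
    rw [sum_comm]
    simp
  rw [e]
  by_cases hj : j ∈ G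
  · rw [hy j hj]
    exact sum_eq_zero fun d _ => by
      rw [hx.zero j _ ((hW' _).mp (mem_inter.mp (m2 d)).2 j hj), zero_mul]
  · exact congrFun hw ⟨j, mem_compl.mpr hj⟩

theorem finrank_closed (hx : Gen A k x) {G : Finset I} (hG : cl A x G = G) :
    finrank k (Kr A x G) + Gᶜ.card ≤ (G.biUnion A)ᶜ.card := by
  set S := Pi.spanSubset k (((G.biUnion A)ᶜ : Finset P) : Set P) with hS
  have h1 := LinearMap.finrank_range_add_finrank_ker (x.mulVecLin.domRestrict S)
  have h2 : finrank k (LinearMap.ker (x.mulVecLin.domRestrict S)) = finrank k (Kr A x G) := by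
    rw [LinearMap.ker_domRestrict, ← Submodule.finrank_map_subtype_eq, Submodule.map_comap_subtype]
    rfl
  have h3 : Pi.spanSubset k ((Gᶜ : Finset I) : Set I) ≤
      LinearMap.range (x.mulVecLin.domRestrict S) := by
    intro y hy
    obtain ⟨u, u1, u2⟩ := closed_surj hx hG y fun j hj =>
      Pi.mem_spanSubset_iff.mp hy j (by simpa using hj)
    exact ⟨⟨u, Pi.mem_spanSubset_iff.mpr fun v hv => by
      obtain ⟨j, hj, hv⟩ : ∃ j ∈ G, v ∈ A j := by simpa using hv
      exact u1 j hj v hv⟩, u2⟩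
  have h4 := Submodule.finrank_mono h3
  rw [Pi.dim_spanSubset, Set.ncard_coe_finset] at h4
  have h5 : finrank k S = (G.biUnion A)ᶜ.card := by
    rw [hS, Pi.dim_spanSubset, Set.ncard_coe_finset]
  omega

/-- The kernels of a well connected family span a large space. -/
theorem span_lower (hx : Gen A k x) (S : Finset (Finset I))
    (ha : ∀ v, ∃ G ∈ S, ∀ j ∈ cl A x G, v ∉ A j)
    (hb : ∀ j, ∀ Y ⊆ S.filter fun G => j ∉ cl A x G, Y.Nonempty →
      ((S.filter fun G => j ∉ cl A x G) \ Y).Nonempty →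
      ∃ G ∈ Y, ∃ G' ∈ (S.filter fun G => j ∉ cl A x G) \ Y, j ∉ cl A x (G ∪ G')) :
    Fintype.card P ≤ finrank k (S.sup (Kr A x) : Submodule k (P → k)) + Fintype.card I := by
  classical
  set N : Submodule k (P → k) := S.sup (Kr A x) with hN
  have hu : ∀ (G : Finset I) (j : I), ∃ u : P → k, j ∉ cl A x G →
      (∀ i ∈ G, ∀ v ∈ A i, u v = 0) ∧ x.mulVec u = Pi.single j 1 := by
    intro G j
    by_cases h : j ∈ cl A x G
    · exact ⟨0, fun h' => absurd h h'⟩
    · obtain ⟨u, u1, u2⟩ := closed_surj hx (cl_cl G) (Pi.single j 1)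
        fun i hi => Pi.single_eq_of_ne (fun e : i = j => h (e ▸ hi)) _
      exact ⟨u, fun _ => ⟨fun i hi => u1 i (subset_cl G hi), u2⟩⟩
  choose u hu using hu
  have hd : ∀ j, ∀ G ∈ S, ∀ G', G ⊆ G' → j ∉ cl A x G' → u G j - u G' j ∈ N := by
    intro j G hG G' h1 h2
    obtain ⟨a1, a2⟩ := hu G j fun h => h2 (cl_mono h1 h)
    obtain ⟨b1, b2⟩ := hu G' j h2
    exact le_sup (f := Kr A x) hG (mem_Kr.mpr ⟨fun i hi v hv => by
      rw [Pi.sub_apply, a1 i hi v hv, b1 i (h1 hi) v hv, sub_zero],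
      by rw [Matrix.mulVec_sub, a2, b2, sub_self]⟩)
  have hw : ∀ j, ∃ w : P → k, ∀ G ∈ S, j ∉ cl A x G → u G j - w ∈ N := by
    intro j
    rcases (S.filter fun G => j ∉ cl A x G).eq_empty_or_nonempty with h | ⟨G₀, h⟩
    · exact ⟨0, fun G hG h' => absurd (mem_filter.mpr ⟨hG, h'⟩) (h ▸ notMem_empty G)⟩
    refine ⟨u G₀ j, fun G hG h' => ?_⟩
    by_contra hc
    obtain ⟨G₁, g1, G₂, g2, g3⟩ := hb j ((S.filter fun G => j ∉ cl A x G).filter
      fun G => u G j - u G₀ j ∈ N) (filter_subset _ _) ⟨G₀, mem_filter.mpr ⟨h, by simp⟩⟩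
      ⟨G, mem_sdiff.mpr ⟨mem_filter.mpr ⟨hG, h'⟩, fun h => hc (mem_filter.mp h).2⟩⟩
    obtain ⟨g4, g5⟩ := mem_sdiff.mp g2
    obtain ⟨g6, g7⟩ := mem_filter.mp g1
    refine g5 (mem_filter.mpr ⟨g4, ?_⟩)
    have := add_mem (sub_mem (hd j G₂ (mem_filter.mp g4).1 _ subset_union_right g3)
      (hd j G₁ (mem_filter.mp g6).1 _ subset_union_left g3)) g7
    convert this using 1
    abel
  choose w hw using hw
  have htop : (⊤ : Submodule k (P → k)) ≤ N ⊔ Submodule.span k (Set.range w) := by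
    rw [← (Pi.basisFun k P).span_eq, Submodule.span_le]
    rintro _ ⟨v, rfl⟩
    obtain ⟨G, hG, hv⟩ := ha v
    have h0 : ∀ j ∈ cl A x G, x j v = 0 := fun j hj => hx.zero j v (hv j hj)
    have e : Pi.basisFun k P v = ((Pi.single v 1 - ∑ j, x j v • u G j) +
        ∑ j, x j v • (u G j - w j)) + ∑ j, x j v • w j := by
      simp only [Pi.basisFun_apply, smul_sub, sum_sub_distrib]
      abel
    rw [e]
    refine Submodule.add_mem_sup (add_mem (le_sup (f := Kr A x) hG (mem_Kr.mpr ⟨?_, ?_⟩))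
      (Submodule.sum_mem _ fun j _ => ?_))
      (Submodule.sum_mem _ fun j _ => Submodule.smul_mem _ _ (Submodule.subset_span ⟨j, rfl⟩))
    · intro i hi z hz
      rw [Pi.sub_apply, Pi.single_eq_of_ne fun e : z = v => hv i (subset_cl G hi) (e ▸ hz),
        Finset.sum_apply, sum_eq_zero, sub_zero]
      intro j _
      by_cases hj : j ∈ cl A x G
      · simp [h0 j hj]
      · simp [(hu G j hj).1 i hi z hz]
    · rw [Matrix.mulVec_sub, Matrix.mulVec_sum, sum_congr rfl (g := fun j => Pi.single j (x j v))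
        fun j _ => ?_, univ_sum_single]
      · funext j; simp
      · by_cases hj : j ∈ cl A x G
        · simp [h0 j hj]
        · rw [Matrix.mulVec_smul, (hu G j hj).2, ← Pi.single_smul, smul_eq_mul, mul_one]
    · by_cases hj : j ∈ cl A x G
      · simp [h0 j hj]
      · exact N.smul_mem _ (hw j G hG hj)
  have h1 := Submodule.finrank_mono htop
  have h2 := Submodule.finrank_add_le_finrank_add_finrank N (Submodule.span k (Set.range w))
  have h3 := finrank_range_le_card (R := k) w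
  rw [finrank_top, finrank_fintype_fun_eq_card] at h1
  exact h1.trans (h2.trans (Nat.add_le_add_left h3 _))

end Pool.Agent.Lib.MP_4a6af7_co.Cyc
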