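import Mathlib
import Pool.Agent.Lib.MP_4a6af7_co.Lin.Sperner

/-! Relative acyclicity, Mayer-Vietoris splitting, null homotopies and a Sperner lemma with an
obstruction. -/

set_option autoImplicit false

namespace Pool.Agent.Lib.MP_4a6af7_co.Cyc

open Pool.Agent.Shared.Mod2 Finset Pool.Agent.Lib.MP_4a6af7_co.Lin

section Abstract

variable {α : Type} [DecidableEq α]

/-- Chains of `X` with boundary in `Z` are homologous to chains of `Z`. -/
def Rel (r : ℕ) (Z X : Set (Finset α)) : Prop :=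
  ∀ k ≤ r, ∀ y ∈ Gr X k, bd y ∈ sup Z → ∃ c ∈ Gr Z k, ∃ τ ∈ Gr X (k + 1), y = c + bd τ

theorem Rel.refl (r : ℕ) (Z : Set (Finset α)) : Rel r Z Z :=
  fun _ _ y hy _ => ⟨y, hy, 0, zero_mem _, by simp⟩

theorem Rel.trans {r : ℕ} {Z Y X : Set (Finset α)} (hZ : Z ⊆ Y) (hY : Y ⊆ X) (h1 : Rel r Z Y)
    (h2 : Rel r Y X) : Rel r Z X := by
  intro k hk y hy hb
  obtain ⟨c, hc, τ, hτ, e⟩ := h2 k hk y hy (sup_mono hZ hb)
  obtain ⟨c', hc', τ', hτ', e'⟩ := h1 k hk c hc (by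
    rwa [e, map_add, bd_bd, add_zero] at hb)
  exact ⟨c', hc', τ' + τ, add_mem (Gr.mono hY _ hτ') hτ, by rw [e, e', map_add, add_assoc]⟩

theorem Rel.step {X : Set (Finset α)} (v : α) (hd : lk v X ⊆ del v X) {r : ℕ}
    (h : Acyc r (lk v X)) : Rel r (del v X) X := by
  intro k hk y hy hb
  cases k with
  | zero =>
    have e := split_eq v y
    rw [dv_zero v hy, map_zero, add_zero] at e
    exact ⟨y, e ▸ rs_mem v hy, 0, zero_mem _, by simp⟩
  | succ k =>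
    have h0 : dv v (bd y) = 0 := map_zero' (fun s hs => by simp [dv, hs.2]) hb
    obtain ⟨d, hd1, e1⟩ := h k (by omega) (dv v y) (dv_mem v hy) (by rw [← dv_bd, h0])
    have e2 := bd_cn v d
    have e3 := split_eq v y
    rw [e1] at e2
    refine ⟨rs v y + d, add_mem (rs_mem v hy) (Gr.mono hd _ hd1), cn v d, cn_mem v hd1, ?_⟩
    linear_combination (norm := abel1) -e3 + e2 - aa (bd (cn v d))

theorem Rel.acyc {r : ℕ} {Z X : Set (Finset α)} (hZ : Z ⊆ X) (h : Rel r Z X) (hX : Acyc r X) :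
    Acyc r Z := by
  intro k hk x hx h0
  obtain ⟨y, hy, e⟩ := hX k hk x (Gr.mono hZ _ hx) h0
  obtain ⟨c, hc, τ, -, e'⟩ := h (k + 1) hk y hy (e ▸ sup_mono (fun _ hs => hs.1) hx)
  exact ⟨c, hc, by rw [← e, e', map_add, bd_bd, add_zero]⟩

theorem bd_mem {Z : Set (Finset α)} (hZ : ∀ s ∈ Z, ∀ x, s.erase x ∈ Z) {k : ℕ}
    {y : Ch (Finset α)} (hy : y ∈ Gr Z (k + 1)) : bd y ∈ Gr Z k :=
  lin_mem (fun s hs => Submodule.sum_mem _ fun x hx => sg_mem (s := {s | s ∈ Z ∧ s.card = k})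
    ⟨hZ s hs.1 x, by rw [card_erase_of_mem hx, hs.2]; rfl⟩) hy

theorem bd_zero {Z : Set (Finset α)} {y : Ch (Finset α)} (hy : y ∈ Gr Z 0) : bd y = 0 :=
  map_zero' (fun s hs => by rw [card_eq_zero.mp hs.2, bd_sg]; simp) hy

/-- Mayer-Vietoris splitting of a cycle. -/
theorem mv {Z Z₁ Z₂ : Set (Finset α)} {k : ℕ} (h1 : ∀ s ∈ Z₁, ∀ x, s.erase x ∈ Z₁)
    (h2 : ∀ s ∈ Z₂, ∀ x, s.erase x ∈ Z₂) (hc : ∀ s ∈ Z, s.card = k + 1 → s ∈ Z₁ ∨ s ∈ Z₂)
    (ha : ∀ x ∈ Gr (Z₁ ∩ Z₂) k, bd x = 0 → ∃ d ∈ Gr (Z₁ ∩ Z₂) (k + 1), bd d = x)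
    {z : Ch (Finset α)} (hz : z ∈ Gr Z (k + 1)) (h0 : bd z = 0) :
    ∃ z₁ ∈ Gr Z₁ (k + 1), ∃ z₂ ∈ Gr Z₂ (k + 1), bd z₁ = 0 ∧ bd z₂ = 0 ∧ z = z₁ + z₂ := by
  obtain ⟨y₁, a1, y₂, a2, e⟩ := sup_split (s := {s | s ∈ Z₁ ∧ s.card = k + 1})
    (t := {s | s ∈ Z₂ ∧ s.card = k + 1}) (x := z)
    (sup_mono (fun s hs => (hc s hs.1 hs.2).imp (fun h => ⟨h, hs.2⟩) fun h => ⟨h, hs.2⟩) hz)
  have e1 : bd y₁ = bd y₂ := eq_of_add_eq_zero (by rw [← map_add, ← e, h0])
  obtain ⟨d, hd, e2⟩ := ha (bd y₁) (Pool.Agent.Shared.Mod2.sup_mono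
    (t := {s | s ∈ Z₁ ∩ Z₂ ∧ s.card = k}) (fun s hs => ⟨⟨hs.1.1, hs.2.1⟩, hs.1.2⟩)
    (sup_inter (bd_mem h1 a1) (e1 ▸ bd_mem h2 a2))) (bd_bd _)
  refine ⟨y₁ + d, add_mem a1 (Gr.mono Set.inter_subset_left _ hd), y₂ + d,
    add_mem a2 (Gr.mono Set.inter_subset_right _ hd), by rw [map_add, e2, aa],
    by rw [map_add, e2, e1, aa], ?_⟩
  linear_combination (norm := abel1) e - aa d

/-- Generalised inverses. -/
theorem exists_ginv {M N : Type} [AddCommGroup M] [Module F M] [AddCommGroup N] [Module F N]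
    (f : M →ₗ[F] N) (C : Submodule F M) :
    ∃ σ : N →ₗ[F] M, (∀ w, σ w ∈ C) ∧ ∀ x ∈ C, f (σ (f x)) = f x := by
  obtain ⟨g, hg⟩ := (f.domRestrict C).rangeRestrict.exists_rightInverse_of_surjective
    (LinearMap.range_rangeRestrict _)
  obtain ⟨g', hg'⟩ := LinearMap.exists_extend g
  refine ⟨C.subtype ∘ₗ g', fun w => (g' w).2, fun x hx => ?_⟩
  have h1 := LinearMap.congr_fun hg' ⟨f x, ⟨x, hx⟩, rfl⟩
  have h2 := congrArg Subtype.val (LinearMap.congr_fun hg ⟨f x, ⟨x, hx⟩, rfl⟩)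
  simp only [LinearMap.comp_apply, Submodule.subtype_apply] at h1 h2 ⊢
  rw [h1]
  exact h2

/-- A chain map that kills homology is null homotopic. -/
theorem null_htpy {β : Type} [DecidableEq β] {Q : Set (Finset α)} {X : Set (Finset β)}
    (hQ : ∀ s ∈ Q, ∀ x, s.erase x ∈ Q) (ψ : Ch (Finset α) →ₗ[F] Ch (Finset β))
    (h1 : ∀ x, bd (ψ x) = ψ (bd x)) (h2 : ∀ k, ∀ x ∈ Gr Q k, ψ x ∈ Gr X k)
    (h3 : ∀ k, ∀ z ∈ Gr Q k, bd z = 0 → ∃ y ∈ Gr X (k + 1), bd y = ψ z) :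
    ∃ θ : ℕ → Ch (Finset α) →ₗ[F] Ch (Finset β), (∀ k w, θ k w ∈ Gr X (k + 1)) ∧
      ∀ k, ∀ w ∈ Gr Q k, bd (θ k w) = ψ w + θ (k - 1) (bd w) := by
  choose σ s1 s2 using fun k => exists_ginv (bd (α := α)) (Gr Q (k + 1))
  choose ρ r1 r2 using fun k => exists_ginv (bd (α := β)) (Gr X (k + 1))
  let z : ℕ → Ch (Finset α) →ₗ[F] Ch (Finset α) := fun k => LinearMap.id + σ (k - 1) ∘ₗ bd
  have hz : ∀ k w, z k w = w + σ (k - 1) (bd w) := fun _ _ => rfl
  let θ : ℕ → Ch (Finset α) →ₗ[F] Ch (Finset β) := fun k =>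
    ψ ∘ₗ σ k ∘ₗ z k + ρ k ∘ₗ ψ ∘ₗ (z k + bd ∘ₗ σ k ∘ₗ z k)
  have hθ : ∀ k w, θ k w = ψ (σ k (z k w)) + ρ k (ψ (z k w + bd (σ k (z k w)))) := fun _ _ => rfl
  refine ⟨θ, fun k w => add_mem (h2 _ _ (s1 _ _)) (r1 _ _), fun k w hw => ?_⟩
  have a1 : z k w ∈ Gr Q k ∧ bd (z k w) = 0 ∧ bd (σ (k - 1) (bd w)) = bd w := by
    cases k with
    | zero =>
      rw [hz, bd_zero hw]
      simpa using ⟨hw, bd_zero hw⟩
    | succ k =>
      refine ⟨add_mem hw (s1 _ _), ?_, s2 k w hw⟩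
      rw [hz, map_add, show k + 1 - 1 = k from rfl, s2 k w hw, aa]
  obtain ⟨y, hy, e⟩ := h3 k (z k w + bd (σ k (z k w))) (add_mem a1.1 (bd_mem hQ (s1 _ _)))
    (by rw [map_add, a1.2.1, bd_bd, add_zero])
  have a2 : z (k - 1) (bd w) = bd w := by rw [hz, bd_bd, map_zero, add_zero]
  rw [hθ, hθ, a2, a1.2.2, aa, map_zero, map_zero, add_zero, map_add, ← e, r2 k y hy, e, h1,
    map_add, add_comm (ψ (z k w)), ← add_assoc, aa, zero_add, hz, map_add]

/-- Push forward along an injective map of vertices. -/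
noncomputable def push {β : Type} [DecidableEq β] (f : α → β) :
    Ch (Finset α) →ₗ[F] Ch (Finset β) := mp fun c => c.image f

theorem bd_push {β : Type} [DecidableEq β] {f : α → β} (hf : Function.Injective f)
    (x : Ch (Finset α)) : bd (push f x) = push f (bd x) := by
  refine map_eq' (L := bd ∘ₗ push f) (L' := push f ∘ₗ bd) (fun s => ?_) x
  simp only [LinearMap.comp_apply, push, mp_sg, bd_sg, map_sum]
  rw [sum_image fun a _ b _ h => hf h]
  exact sum_congr rfl fun a _ => by rw [image_erase hf]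

end Abstract

section Poset

variable {E : Type} [DecidableEq E]

theorem OC_erase (P : Set (Finset E)) : ∀ s ∈ OC P, ∀ x, s.erase x ∈ OC P :=
  fun _ hs _ a ha => ⟨(hs a (mem_of_mem_erase ha)).1,
    fun b hb => (hs a (mem_of_mem_erase ha)).2 b (mem_of_mem_erase hb)⟩

omit [DecidableEq E] in
theorem OC_inter (P Q : Set (Finset E)) : OC P ∩ OC Q = OC (P ∩ Q) := by
  ext c
  exact ⟨fun h a ha => ⟨⟨(h.1 a ha).1, (h.2 a ha).1⟩, (h.1 a ha).2⟩,
    fun h => ⟨OC_mono Set.inter_subset_left h, OC_mono Set.inter_subset_right h⟩⟩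

theorem rel_vertex {P : Set (Finset E)} {v : Finset E} (hv : v ∈ P) {r : ℕ}
    (h : Ac r {a | a ∈ P ∧ a ≠ v ∧ Cmp a v}) : Rel r (OC {a | a ∈ P ∧ a ≠ v}) (OC P) := by
  rw [← del_OC]
  refine Rel.step v ?_ (by rwa [lk_OC hv])
  rw [del_OC, lk_OC hv]
  exact OC_mono fun a ha => ⟨ha.1, ha.2.1⟩

/-- Adding elements whose links are cones. -/
theorem rel_grow {P : Set (Finset E)} (r : ℕ) (w : Finset E → ℤ) (φ : Finset E → Finset E)
    (Q : Finset (Finset E)) (h1 : ∀ x ∈ Q, x ∉ P ∧ φ x ∈ P ∧ Cmp (φ x) x ∧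
      (∀ a ∈ P, Cmp a x → Cmp a (φ x)) ∧ ∀ a ∈ Q, Cmp a x → w a ≤ w x → Cmp a (φ x)) :
    Rel r (OC P) (OC {a | a ∈ P ∨ a ∈ Q}) := by
  induction Q using Finset.induction_on_max_value w with
  | empty => simpa using Rel.refl r (OC P)
  | insert x Q hx hmax ih =>
    have ih' := ih fun y hy => by
      obtain ⟨a1, a2, a3, a4, a5⟩ := h1 y (mem_insert_of_mem hy)
      exact ⟨a1, a2, a3, a4, fun a ha => a5 a (mem_insert_of_mem ha)⟩
    obtain ⟨a1, a2, a3, a4, a5⟩ := h1 x (mem_insert_self _ _)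
    have e : {a | a ∈ {a | a ∈ P ∨ a ∈ insert x Q} ∧ a ≠ x} = {a | a ∈ P ∨ a ∈ Q} := by
      ext a
      simp only [Set.mem_ofPred_eq, mem_insert]
      constructor
      · rintro ⟨h2 | h2 | h2, h3⟩
        · exact Or.inl h2
        · exact absurd h2 h3
        · exact Or.inr h2
      · rintro (h2 | h2)
        · exact ⟨Or.inl h2, fun e => a1 (e ▸ h2)⟩
        · exact ⟨Or.inr (Or.inr h2), fun e => hx (e ▸ h2)⟩
    have h := rel_vertex (P := {a | a ∈ P ∨ a ∈ insert x Q}) (v := x) (r := r)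
      (Or.inr (mem_insert_self _ _)) (Ac.cone (v := φ x)
        (by exact ⟨Or.inl a2, fun e => a1 (e ▸ a2), a3⟩) (by
        rintro a ⟨h2 | h2, h3, h4⟩
        · exact a4 a h2 h4
        · exact a5 a h2 h4 (hmax a ((mem_insert.mp h2).resolve_left h3))) r)
    rw [e] at h
    exact Rel.trans (OC_mono fun a ha => Or.inl ha)
      (OC_mono fun a ha => ha.imp_right mem_insert_of_mem) ih' h

open Classical in
/-- Retraction by an inflationary map. -/
theorem rel_up [Fintype E] {P P' : Set (Finset E)} (r : ℕ) (hP : P ⊆ P') (φ : Finset E → Finset E)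
    (h : ∀ x ∈ P', x ∉ P → φ x ∈ P ∧ x ⊆ φ x ∧ ∀ a ∈ P, x ⊆ a → φ x ⊆ a) :
    Rel r (OC P) (OC P') := by
  have := rel_grow (P := P) r (fun a => (a.card : ℤ)) φ (univ.filter fun a => a ∈ P' ∧ a ∉ P)
    fun x hx => by
      obtain ⟨b1, b2⟩ := (mem_filter.mp hx).2
      obtain ⟨c1, c2, c3⟩ := h x b1 b2
      refine ⟨b2, c1, Or.inr c2, fun a ha hc => ?_, fun a _ hc hw => ?_⟩
      · exact hc.elim (fun h => Or.inl (h.trans c2)) fun h => Or.inr (c3 a ha h)
      · rcases hc with hc | hc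
        · exact Or.inl (hc.trans c2)
        · rw [← eq_of_subset_of_card_le hc (by exact_mod_cast hw)]
          exact Or.inl c2
  convert this using 2
  ext a
  simp only [Set.mem_ofPred_eq, mem_filter, mem_univ, true_and]
  exact ⟨fun h => (Classical.em (a ∈ P)).imp_right fun h' => ⟨h, h'⟩, fun h => h.elim (hP ·) (·.1)⟩

open Classical in
/-- Retraction by a deflationary map. -/
theorem rel_down [Fintype E] {P P' : Set (Finset E)} (r : ℕ) (hP : P ⊆ P')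
    (φ : Finset E → Finset E)
    (h : ∀ x ∈ P', x ∉ P → φ x ∈ P ∧ φ x ⊆ x ∧ ∀ a ∈ P, a ⊆ x → a ⊆ φ x) :
    Rel r (OC P) (OC P') := by
  have := rel_grow (P := P) r (fun a => -(a.card : ℤ)) φ (univ.filter fun a => a ∈ P' ∧ a ∉ P)
    fun x hx => by
      obtain ⟨b1, b2⟩ := (mem_filter.mp hx).2
      obtain ⟨c1, c2, c3⟩ := h x b1 b2
      refine ⟨b2, c1, Or.inl c2, fun a ha hc => ?_, fun a _ hc hw => ?_⟩
      · exact hc.elim (fun h => Or.inl (c3 a ha h)) fun h => Or.inr (c2.trans h)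
      · rcases hc with hc | hc
        · rw [eq_of_subset_of_card_le hc (by omega)]
          exact Or.inr c2
        · exact Or.inr (c2.trans hc)
  convert this using 2
  ext a
  simp only [Set.mem_ofPred_eq, mem_filter, mem_univ, true_and]
  exact ⟨fun h => (Classical.em (a ∈ P)).imp_right fun h' => ⟨h, h'⟩, fun h => h.elim (hP ·) (·.1)⟩

/-- Removing an up-set. -/
theorem rel_trunc (r : ℕ) (R : Finset (Finset E)) : ∀ P : Set (Finset E),
    (∀ x ∈ R, x ∈ P ∧ (∀ a ∈ P, x ⊂ a → a ∈ R) ∧ Ac r {a | a ∈ P ∧ a ⊂ x}) →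
    Rel r (OC {a | a ∈ P ∧ a ∉ R}) (OC P) := by
  induction R using Finset.induction_on_max_value (fun a : Finset E => a.card) with
  | empty => intro P _; simpa using Rel.refl r (OC P)
  | insert x R hx hmax ih =>
    intro P h
    obtain ⟨a1, a2, a3⟩ := h x (mem_insert_self _ _)
    have h1 := rel_vertex (P := P) (v := x) (r := r) a1 (by
      convert a3 using 1
      ext a
      constructor
      · rintro ⟨b1, b2, b3 | b3⟩
        · exact ⟨b1, b3, fun h => b2 (Subset.antisymm b3 h)⟩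
        · have b4 : x ⊂ a := ⟨b3, fun h => b2 (Subset.antisymm h b3)⟩
          exact absurd (card_lt_card b4)
            (not_lt.mpr (hmax a ((mem_insert.mp (a2 a b1 b4)).resolve_left b2)))
      · rintro ⟨b1, b2⟩
        exact ⟨b1, b2.ne, Or.inl b2.1⟩)
    have h2 := ih {a | a ∈ P ∧ a ≠ x} fun y hy => by
      obtain ⟨b1, b2, b3⟩ := h y (mem_insert_of_mem hy)
      refine ⟨⟨b1, fun e => hx (e ▸ hy)⟩,
        fun a ha hya => (mem_insert.mp (b2 a ha.1 hya)).resolve_left ha.2, ?_⟩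
      convert b3 using 1
      ext a
      exact ⟨fun h => ⟨h.1.1, h.2⟩, fun h => ⟨⟨h.1, fun e =>
        absurd (card_lt_card h.2) (not_lt.mpr (e ▸ hmax y hy))⟩, h.2⟩⟩
    have e : {a | a ∈ P ∧ a ∉ insert x R} = {a | a ∈ {a | a ∈ P ∧ a ≠ x} ∧ a ∉ R} := by
      ext a
      simp only [Set.mem_ofPred_eq, mem_insert, not_or, and_assoc]
    rw [e]
    exact Rel.trans (OC_mono fun a ha => ha.1) (OC_mono fun a ha => ha.1) h2 h1

omit [DecidableEq E] in
theorem chain_min {P : Set (Finset E)} {c : Finset (Finset E)} (hc : c ∈ OC P) (hne : c.Nonempty) :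
    ∃ a ∈ c, ∀ b ∈ c, a ⊆ b := by
  obtain ⟨a, ha, h⟩ := exists_min_image c card hne
  exact ⟨a, ha, fun b hb => ((hc a ha).2 b hb).elim id fun h' =>
    (eq_of_subset_of_card_le h' (h b hb)).ge⟩

omit [DecidableEq E] in
theorem chain_max {P : Set (Finset E)} {c : Finset (Finset E)} (hc : c ∈ OC P) (hne : c.Nonempty) :
    ∃ a ∈ c, ∀ b ∈ c, b ⊆ a := by
  obtain ⟨a, ha, h⟩ := exists_max_image c card hne
  exact ⟨a, ha, fun b hb => ((hc b hb).2 a ha).elim id fun h' =>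
    (eq_of_subset_of_card_le h' (h b hb)).ge⟩

/-- Barycentric subdivision of the faces of a simplex. -/
theorem exists_sd : ∃ sd : Finset E → Ch (Finset (Finset E)), sd ∅ = sg ∅ ∧ ∀ J : Finset E,
    sd J ∈ Gr (OC {a | a ⊆ J ∧ a.Nonempty}) J.card ∧ bd (sd J) = ∑ i ∈ J, sd (J.erase i) := by
  let sd : Finset E → Ch (Finset (Finset E)) := fun J => Finset.strongInduction
    (fun J ih => if J = ∅ then sg ∅ else cn J (∑ i ∈ J.attach, ih (J.erase i.1) (erase_ssubset i.2))) J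
  have hsd : ∀ J, sd J = if J = ∅ then sg ∅ else cn J (∑ i ∈ J, sd (J.erase i)) := by
    intro J
    simp only [sd]
    rw [Finset.strongInduction_eq]
    rw [← sum_attach J]
  refine ⟨sd, by rw [hsd]; simp, fun J => ?_⟩
  induction J using Finset.strongInduction with
  | H J ih =>
    rw [hsd]
    split_ifs with h
    · subst h
      exact ⟨sg_mem ⟨fun a ha => absurd ha (notMem_empty a), rfl⟩, by simp [bd_sg]⟩
    · have hJ : J.Nonempty := nonempty_iff_ne_empty.mpr h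
      have h0 : bd (∑ i ∈ J, sd (J.erase i)) = 0 := by
        rw [map_sum, sum_congr rfl fun i hi => (ih _ (erase_ssubset hi)).2]
        exact sum_sum_erase J sd
      constructor
      · obtain ⟨k, hk⟩ : ∃ k, J.card = k + 1 := ⟨J.card - 1, by have := card_pos.mpr hJ; omega⟩
        rw [hk]
        refine cn_mem J (Submodule.sum_mem _ fun i hi => ?_)
        have := (ih _ (erase_ssubset hi)).1
        rw [card_erase_of_mem hi, hk] at this
        refine Gr.mono ?_ _ this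
        rw [lk_OC (P := {a | a ⊆ J ∧ a.Nonempty}) ⟨Subset.rfl, hJ⟩]
        exact OC_mono fun a ha => ⟨⟨ha.1.trans (erase_subset _ _), ha.2⟩,
          fun e => notMem_erase i J (ha.1 (e ▸ hi)), Or.inl (ha.1.trans (erase_subset _ _))⟩
      · have := bd_cn J (∑ i ∈ J, sd (J.erase i))
        rwa [h0, map_zero, add_zero] at this

end Poset

section Sperner

variable {β ι : Type} [DecidableEq β] [DecidableEq ι]

theorem cnt_one (Z : Finset ι → Set (Finset β)) (lab : β → ι)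
    (hlab : ∀ J, ∀ c ∈ Z J, ∀ x ∈ c, lab x ∈ J) (a : Finset ι → Ch (Finset β)) (h0 : a ∅ = sg ∅)
    (h1 : ∀ J, a J ∈ Gr (Z J) J.card) (h2 : ∀ J, bd (a J) = ∑ i ∈ J, a (J.erase i))
    (J : Finset ι) : cnt lab J (a J) = 1 := by
  induction J using Finset.strongInduction with
  | H J ih =>
    rcases J.eq_empty_or_nonempty with rfl | ⟨i, hi⟩
    · simp [h0, cnt]
    have e1 : cnt lab (J.erase i) (bd (a J)) = cnt lab J (a J) := by
      refine map_eq (L := cnt lab (J.erase i) ∘ₗ bd) (fun c hc' => ?_) (h1 J)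
      have := cnt_bd lab (notMem_erase i J) (c := c) (by rw [hc'.2, card_erase_add_one hi])
        (by rw [insert_erase hi]; exact hlab J c hc'.1)
      rwa [insert_erase hi] at this
    rw [← e1, h2, map_sum, sum_eq_single i, ih _ (erase_ssubset hi)]
    · intro j hj hji
      refine map_zero' (fun c hc' => ?_) (h1 _)
      simp only [cnt, lin_sg]
      refine if_neg fun e => ?_
      obtain ⟨x, hx, e'⟩ := mem_image.mp (e ▸ mem_erase.mpr ⟨hji, hj⟩ : j ∈ c.image lab)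
      exact notMem_erase j J (e' ▸ hlab _ c hc'.1 x hx)
    · exact fun h => absurd hi h

/-- Sperner's lemma with an obstruction. -/
theorem sperner2 [Fintype ι] (X : Set (Finset β)) (Z : Finset ι → Set (Finset β)) (lab : β → ι)
    (Γ : Finset ι → Prop) (hΓ : ∀ J i, Γ J → Γ (J.erase i)) (hΓ0 : Γ ∅)
    (hmono : ∀ J i, Z (J.erase i) ⊆ Z J) (hlab : ∀ J, ∀ c ∈ Z J, ∀ x ∈ c, lab x ∈ J)
    (a₀ τ₀ : Finset ι → Ch (Finset β)) (h0 : a₀ ∅ = sg ∅)
    (h1 : ∀ J, Γ J → a₀ J ∈ Gr (Z J) J.card ∧ τ₀ J ∈ Gr X (J.card + 1) ∧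
      bd (τ₀ J) = a₀ J + ∑ i ∈ J, τ₀ (J.erase i))
    (hrel : ∀ J, ¬ Γ J → Rel J.card (Z J) X) (J : Finset ι) : ∃ c ∈ Z J, c.image lab = J := by
  classical
  have hbd : ∀ (a τ : Finset ι → Ch (Finset β)) (J : Finset ι),
      (∀ i ∈ J, bd (τ (J.erase i)) = a (J.erase i) + ∑ j ∈ J.erase i, τ ((J.erase i).erase j)) →
      bd (∑ i ∈ J, τ (J.erase i)) = ∑ i ∈ J, a (J.erase i) := by
    intro a τ J h
    rw [map_sum, sum_congr rfl h, sum_add_distrib, sum_sum_erase J τ, add_zero]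
  have key : ∀ k, ∃ a τ : Finset ι → Ch (Finset β), (∀ J, Γ J → a J = a₀ J ∧ τ J = τ₀ J) ∧
      ∀ J : Finset ι, J.card ≤ k → a J ∈ Gr (Z J) J.card ∧ τ J ∈ Gr X (J.card + 1) ∧
        bd (τ J) = a J + ∑ i ∈ J, τ (J.erase i) := by
    intro k
    induction k with
    | zero =>
      refine ⟨a₀, τ₀, fun _ _ => ⟨rfl, rfl⟩, fun J hJ => ?_⟩
      obtain rfl := card_eq_zero.mp (Nat.le_zero.mp hJ)
      exact h1 _ hΓ0
    | succ k ih =>
      obtain ⟨a, τ, g1, g2⟩ := ih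
      have hex : ∀ J : Finset ι, ∃ c t, J.card = k + 1 → ¬ Γ J →
          c ∈ Gr (Z J) (k + 1) ∧ t ∈ Gr X (k + 1 + 1) ∧ ∑ i ∈ J, τ (J.erase i) = c + bd t := by
        intro J
        by_cases hJ : J.card = k + 1 ∧ ¬ Γ J
        · have he : ∀ i ∈ J, (J.erase i).card = k := fun i hi => by
            rw [card_erase_of_mem hi, hJ.1]; rfl
          obtain ⟨c, c1, t, t1, e⟩ := hrel J hJ.2 (k + 1) hJ.1.ge (∑ i ∈ J, τ (J.erase i))
            (Submodule.sum_mem _ fun i hi => he i hi ▸ (g2 _ (he i hi).le).2.1) (by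
              rw [hbd a τ J fun i hi => (g2 _ (he i hi).le).2.2]
              exact Submodule.sum_mem _ fun i hi =>
                sup_mono (fun s hs => hmono J i hs.1) (g2 _ (he i hi).le).1)
          exact ⟨c, t, fun _ _ => ⟨c1, t1, e⟩⟩
        · exact ⟨0, 0, fun h h' => absurd ⟨h, h'⟩ hJ⟩
      choose c t hct using hex
      refine ⟨fun J => if J.card = k + 1 ∧ ¬ Γ J then c J else a J,
        fun J => if J.card = k + 1 ∧ ¬ Γ J then t J else τ J, fun J hJ => ?_, fun J hJ => ?_⟩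
      · simp only [if_neg (fun h : J.card = k + 1 ∧ ¬ Γ J => h.2 hJ)]
        exact g1 J hJ
      have he : ∀ i ∈ J, ¬ ((J.erase i).card = k + 1 ∧ ¬ Γ (J.erase i)) := fun i hi h => by
        have := card_erase_lt_of_mem hi
        omega
      rw [sum_congr rfl fun i hi => if_neg (he i hi)]
      by_cases hc : J.card = k + 1 ∧ ¬ Γ J
      · simp only [if_pos hc]
        obtain ⟨y1, y2, y3⟩ := hct J hc.1 hc.2
        exact ⟨hc.1 ▸ y1, hc.1 ▸ y2, by rw [y3, ← add_assoc, aa, zero_add]⟩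
      · simp only [if_neg hc]
        by_cases hG : Γ J
        · rw [(g1 J hG).1, (g1 J hG).2, sum_congr rfl fun i _ => (g1 _ (hΓ J i hG)).2]
          exact h1 J hG
        · exact g2 J (by have : J.card ≠ k + 1 := fun h => hc ⟨h, hG⟩; omega)
  obtain ⟨a, τ, g1, g2⟩ := key (Fintype.card ι)
  replace g2 := fun J => g2 J (card_le_univ J)
  have hc := cnt_one Z lab hlab a (by rw [(g1 ∅ hΓ0).1, h0]) (fun J => (g2 J).1) (fun J => by
    have := congrArg bd (g2 J).2.2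
    rw [bd_bd, map_add, hbd a τ J fun i _ => (g2 _).2.2] at this
    exact eq_of_add_eq_zero this.symm) J
  by_contra hn
  push Not at hn
  rw [map_zero' (fun c hc' => by simp only [cnt, lin_sg]; exact if_neg (hn c hc'.1)) (g2 J).1] at hc
  exact zero_ne_one hc

end Sperner

end Pool.Agent.Lib.MP_4a6af7_co.Cyc
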