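import Mathlib
import Pool.Agent.Lib.MP_4a6af7_co.Cyc.Rel
import Pool.Agent.Lib.MP_4a6af7_co.Cyc.Gen

/-! Cycles of high degree in the nerve of the kernels are trivial. -/

set_option autoImplicit false

namespace Pool.Agent.Lib.MP_4a6af7_co.Cyc

open Pool.Agent.Shared.Mod2 Finset Module Pool.Agent.Lib.MP_4a6af7_co.Lin

variable {I P : Type} [Fintype I] [DecidableEq I] [Fintype P] [DecidableEq P]
  {k : Type} [Field k] (A : I → Finset P) (x : Matrix I P k)

/-- Nonempty faces of the nerve. -/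
def Fc : Set (Finset I) := {J | J.Nonempty ∧ Kr A x J ≠ ⊥}

/-- Closed faces above a member of the family. -/
def Up (S : Finset (Finset I)) : Set (Finset I) :=
  {J | cl A x J = J ∧ Kr A x J ≠ ⊥ ∧ ∃ G ∈ S, G ⊆ J}

/-- All cycles are trivial. -/
def Good (B : Submodule F (Ch (Finset (Finset I)))) (m : ℕ) (T : Set (Finset I)) : Prop :=
  ∀ z ∈ Gr (OC T) (m + 1), bd z = 0 → z ∈ B

variable {A x} {B : Submodule F (Ch (Finset (Finset I)))} {m : ℕ}

omit [Fintype I] in
theorem Good.mono {T T' : Set (Finset I)} (h : Good B m T') (hT : T ⊆ T') : Good B m T :=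
  fun z hz => h z (Gr.mono (OC_mono hT) _ hz)

omit [DecidableEq I] in
theorem up_sub {S : Finset (Finset I)} (hS : ∀ G ∈ S, G.Nonempty) : Up A x S ⊆ Fc A x :=
  fun _ ⟨_, h1, G, h2, h3⟩ => ⟨(hS G h2).mono h3, h1⟩

omit [DecidableEq I] in
theorem up_mono {S S' : Finset (Finset I)} (h : ∀ G ∈ S, ∃ G' ∈ S', G' ⊆ cl A x G) :
    Up A x S ⊆ Up A x S' := fun _ ⟨h1, h2, G, h3, h4⟩ =>
  let ⟨G', h5, h6⟩ := h G h3; ⟨h1, h2, G', h5, h6.trans (h1 ▸ cl_mono h4)⟩

omit [Fintype I] in
theorem good_rel (hB : ∀ y ∈ Gr (OC (Fc A x)) (m + 2), bd y ∈ B) {T T' : Set (Finset I)}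
    (h : T' ⊆ Fc A x) (hr : Rel (m + 1) (OC T) (OC T')) (hT : Good B m T) : Good B m T' := by
  intro z hz h0
  obtain ⟨c, hc, τ, hτ, e⟩ := hr _ le_rfl z hz (h0 ▸ zero_mem _)
  rw [e, map_add, bd_bd, add_zero] at h0
  exact e ▸ add_mem (hT c hc h0) (hB τ (Gr.mono (OC_mono h) _ hτ))

theorem fill_single (G : Finset I) {n : ℕ} (hn : 1 ≤ n) : ∀ z ∈ Gr (OC (Up A x {G})) n,
    bd z = 0 → ∃ d ∈ Gr (OC (Up A x {G})) (n + 1), bd d = z := by
  by_cases h : Kr A x G = ⊥
  · intro z hz _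
    refine ⟨0, zero_mem _, ?_⟩
    rw [map_zero, eq_zero_of_mem hz]
    rintro c ⟨h1, h2⟩
    obtain ⟨a, ha⟩ := card_pos.mp (show 0 < c.card by omega)
    obtain ⟨-, h3, G', h4, h5⟩ := (h1 a ha).1
    exact h3 (eq_bot_iff.mpr (h ▸ Kr_anti (mem_singleton.mp h4 ▸ h5)))
  · refine Ac.cone (P := Up A x {G}) (v := cl A x G)
      ⟨cl_cl G, by rwa [Kr_cl], G, mem_singleton_self G, subset_cl G⟩ ?_ (n + 1) n (by omega)
    rintro a ⟨h1, -, G', h4, h5⟩
    exact Or.inr (h1 ▸ cl_mono (mem_singleton.mp h4 ▸ h5))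

theorem good_single (hB : ∀ y ∈ Gr (OC (Fc A x)) (m + 2), bd y ∈ B) {G : Finset I}
    (hG : G.Nonempty) : Good B m (Up A x {G}) := by
  intro z hz h0
  obtain ⟨d, hd, e⟩ := fill_single G (by omega) z hz h0
  exact e ▸ hB d (Gr.mono (OC_mono (up_sub (by simpa using hG))) _ hd)

theorem good_split {S S₁ S₂ : Finset (Finset I)}
    (hc : ∀ G ∈ S, (∃ G' ∈ S₁, G' ⊆ cl A x G) ∨ ∃ G' ∈ S₂, G' ⊆ cl A x G)
    (hf : ∀ z ∈ Gr (OC (Up A x S₁ ∩ Up A x S₂)) m, bd z = 0 →
      ∃ d ∈ Gr (OC (Up A x S₁ ∩ Up A x S₂)) (m + 1), bd d = z)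
    (h1 : Good B m (Up A x S₁)) (h2 : Good B m (Up A x S₂)) : Good B m (Up A x S) := by
  intro z hz h0
  obtain ⟨z₁, a1, z₂, a2, a3, a4, e⟩ := mv (OC_erase (Up A x S₁)) (OC_erase (Up A x S₂))
    (fun c hc' hk => by
      obtain ⟨a, ha, hmin⟩ := chain_min hc' (card_pos.mp (by omega))
      obtain ⟨b1, -, G, b2, b3⟩ := (hc' a ha).1
      have hG : cl A x G ⊆ a := b1 ▸ cl_mono b3
      refine (hc G b2).imp ?_ ?_ <;> rintro ⟨G', g1, g2⟩ b hb <;>
        exact ⟨⟨(hc' b hb).1.1, (hc' b hb).1.2.1, G', g1, (g2.trans hG).trans (hmin b hb)⟩,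
          (hc' b hb).2⟩) (by rwa [OC_inter]) hz h0
  exact e ▸ add_mem (h1 z₁ a1 a3) (h2 z₂ a2 a4)

theorem chain_rank {T : Set (Finset I)} (hT : ∀ J ∈ T, cl A x J = J ∧ Kr A x J ≠ ⊥) (n : ℕ) :
    ∀ c ∈ OC T, c.card = n + 1 → ∃ J ∈ c, n + 1 ≤ finrank k (Kr A x J) := by
  induction n with
  | zero =>
    intro c hc hk
    obtain ⟨a, ha⟩ := card_pos.mp (show 0 < c.card by omega)
    exact ⟨a, ha, Submodule.one_le_finrank_iff.mpr (hT a (hc a ha).1).2⟩
  | succ n ih =>
    intro c hc hk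
    obtain ⟨a, ha, hmin⟩ := chain_min hc (card_pos.mp (by omega))
    obtain ⟨J, h1, h2⟩ := ih _ (OC_erase T c hc a) (by rw [card_erase_of_mem ha]; omega)
    have h3 := mem_of_mem_erase h1
    refine ⟨a, ha, lt_of_le_of_lt h2 (Submodule.finrank_lt_finrank_of_lt
      (lt_of_le_of_ne (Kr_anti (hmin J h3)) fun e => ne_of_mem_erase h1 ?_))⟩
    refine Subset.antisymm ?_ (hmin J h3)
    rw [← (hT J (hc J h3).1).1, ← (hT a (hc a ha).1).1]
    exact cl_le e.ge

theorem conn {g : ℕ} (hg : 1 ≤ g) (hm : g ≤ m) {S : Finset (Finset I)} (hS : ∀ G ∈ S, G.Nonempty)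
    (hmin : ∀ S' : Finset (Finset I), (∀ G ∈ S', G.Nonempty) → S'.card < S.card →
      Good B m (Up A x S')) (hn : ¬ Good B m (Up A x S)) {Y : Finset (Finset I)} (hY : Y ⊆ S)
    (h1 : Y.Nonempty) (h2 : (S \ Y).Nonempty) :
    ∃ G ∈ Y, ∃ G' ∈ S \ Y, g ≤ finrank k (Kr A x (G ∪ G')) := by
  by_contra hc
  push Not at hc
  have e := card_sdiff_add_card_eq_card hY
  have := card_pos.mpr h1
  have := card_pos.mpr h2
  refine hn (good_split (S₁ := Y) (S₂ := S \ Y) (fun G hG => ?_) (fun z hz _ => ?_)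
    (hmin _ (fun G hG => hS G (hY hG)) (by omega))
    (hmin _ (fun G hG => hS G (mem_sdiff.mp hG).1) (by omega)))
  · by_cases h : G ∈ Y
    · exact Or.inl ⟨G, h, subset_cl G⟩
    · exact Or.inr ⟨G, mem_sdiff.mpr ⟨hG, h⟩, subset_cl G⟩
  · refine ⟨0, zero_mem _, ?_⟩
    rw [map_zero, eq_zero_of_mem hz]
    rintro c ⟨h3, h4⟩
    obtain ⟨J, j1, j2⟩ := chain_rank (A := A) (x := x) (fun J hJ => ⟨hJ.1.1, hJ.1.2.1⟩) (m - 1) c h3
      (by omega)
    obtain ⟨⟨-, -, G, g1, g2⟩, -, -, G', g3, g4⟩ := (h3 J j1).1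
    have := hc G g1 G' g3
    have := Submodule.finrank_mono (Kr_anti (A := A) (x := x) (union_subset g2 g4))
    omega

theorem upper (hx : Gen A k x) {s g : ℕ} (hI : Fintype.card I = s)
    (hP : Fintype.card P = 2 * s + g) (hA : ∀ j, (A j).card = s) (hg : 1 ≤ g) (hm : g ≤ m)
    (hB : ∀ y ∈ Gr (OC (Fc A x)) (m + 2), bd y ∈ B) {S : Finset (Finset I)}
    (hS : ∀ G ∈ S, G.Nonempty) (hcl : ∀ G ∈ S, cl A x G = G)
    (hdis : ∀ G ∈ S, ∀ G' ∈ S, G ≠ G' → Disjoint G G')
    (hmin : ∀ S' : Finset (Finset I), (∀ G ∈ S', G.Nonempty) → S'.card < S.card →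
      Good B m (Up A x S')) (hn : ¬ Good B m (Up A x S)) :
    finrank k (S.sup (Kr A x) : Submodule k (P → k)) + 1 ≤ s + g := by
  have hb : ∀ b ∈ S, finrank k (Kr A x b) ≤ g + b.card := by
    intro b hb
    have h1 := finrank_closed hx (hcl b hb)
    obtain ⟨j, hj⟩ := hS b hb
    have h2 := card_le_card (subset_biUnion_of_mem A hj)
    have h3 := card_add_card_compl b
    have h4 := card_add_card_compl (b.biUnion A)
    have := hA j
    omega
  have hstep : ∀ T ⊆ S, T.Nonempty → (S \ T).Nonempty → ∃ G ∈ T, ∃ b ∈ S \ T,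
      g ≤ finrank k (Kr A x (G ∪ b)) ∧ Kr A x (G ∪ b) ≤ Kr A x b ⊓ T.sup (Kr A x) ∧
      finrank k ((insert b T).sup (Kr A x) : Submodule k (P → k)) +
        finrank k (Kr A x b ⊓ T.sup (Kr A x) : Submodule k (P → k)) ≤
        g + b.card + finrank k (T.sup (Kr A x) : Submodule k (P → k)) := by
    intro T h1 h2 h3
    obtain ⟨G, g1, b, g2, g3⟩ := conn hg hm hS hmin hn h1 h2 h3
    refine ⟨G, g1, b, g2, g3, le_inf (Kr_anti subset_union_right)
      ((Kr_anti subset_union_left).trans (le_sup g1)), ?_⟩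
    rw [sup_insert, Submodule.finrank_sup_add_finrank_inf_eq]
    exact Nat.add_le_add_right (hb b (mem_sdiff.mp g2).1) _
  have h2 : 2 ≤ S.card := by
    by_contra hc
    rcases S.eq_empty_or_nonempty with rfl | ⟨G, hG⟩
    · exact hn ((good_single (G := univ) hB (by
        by_contra h
        refine hn fun z hz _ => ?_
        rw [eq_zero_of_mem hz]
        · exact zero_mem _
        · rintro c ⟨h1, h2⟩
          obtain ⟨a, ha⟩ := card_pos.mp (show 0 < c.card by omega)
          simpa using (h1 a ha).1.2.2)).mono (up_mono (by simp)))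
    · exact hn ((good_single hB (hS G hG)).mono (up_mono fun G' hG' =>
        ⟨G, mem_singleton_self G, card_le_one.mp (by omega) G hG G' hG' ▸ subset_cl G⟩))
  have grow : ∀ n, n + 1 ≤ S.card → ∃ T ⊆ S, T.card = n + 1 ∧
      finrank k (T.sup (Kr A x) : Submodule k (P → k)) ≤ g + ∑ b ∈ T, b.card := by
    intro n
    induction n with
    | zero =>
      intro _
      obtain ⟨G, hG⟩ := card_pos.mp (show 0 < S.card by omega)
      exact ⟨{G}, by simpa using hG, rfl, by rw [sup_singleton, sum_singleton]; exact hb G hG⟩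
    | succ n ih =>
      intro h
      obtain ⟨T, t1, t2, t3⟩ := ih (by omega)
      have e := card_sdiff_add_card_eq_card t1
      obtain ⟨G, -, b, g2, g3, g4, g5⟩ := hstep T t1 (card_pos.mp (by omega)) (card_pos.mp (by omega))
      have := Submodule.finrank_mono g4
      refine ⟨insert b T, insert_subset (mem_sdiff.mp g2).1 t1,
        by rw [card_insert_of_notMem (mem_sdiff.mp g2).2, t2], ?_⟩
      rw [sum_insert (mem_sdiff.mp g2).2]
      omega
  obtain ⟨T, t1, t2, t3⟩ := grow (S.card - 2) (by omega)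
  have e := card_sdiff_add_card_eq_card t1
  obtain ⟨G, g1, b, g2, g3, g4, g5⟩ := hstep T t1 (card_pos.mp (by omega)) (card_pos.mp (by omega))
  obtain ⟨g6, g7⟩ := mem_sdiff.mp g2
  have eS : insert b T = S := eq_of_subset_of_card_le (insert_subset g6 t1)
    (by rw [card_insert_of_notMem g7]; omega)
  have hsum : b.card + ∑ b ∈ T, b.card ≤ s := by
    rw [← sum_insert g7, eS, ← hI]
    have := card_biUnion (s := S) (t := id) hdis
    exact le_trans this.ge (card_le_univ _)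
  rw [eS] at g5
  by_contra hc
  have e2 := Submodule.eq_of_le_of_finrank_le g4 (by omega)
  refine hn (good_split (S₁ := T) (S₂ := {b}) (fun G' hG' => ?_) ?_
    (hmin T (fun G hG => hS G (t1 hG)) (by omega)) (good_single hB (hS b g6)))
  · rcases mem_insert.mp (eS ▸ hG') with rfl | h
    · exact Or.inr ⟨G', mem_singleton_self _, subset_cl _⟩
    · exact Or.inl ⟨G', h, subset_cl _⟩
  · have : Up A x T ∩ Up A x {b} = Up A x {G ∪ b} := by
      ext J
      constructor
      · rintro ⟨⟨j1, j2, G', j3, j4⟩, -, -, b', j5, j6⟩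
        rw [mem_singleton.mp j5] at j6
        refine ⟨j1, j2, _, mem_singleton_self _, ((subset_cl _).trans (cl_le ?_)).trans j1.le⟩
        rw [e2]
        exact le_inf (Kr_anti j6) ((Kr_anti j4).trans (le_sup j3))
      · rintro ⟨j1, j2, G', j3, j4⟩
        rw [mem_singleton.mp j3] at j4
        exact ⟨⟨j1, j2, G, g1, subset_union_left.trans j4⟩,
          j1, j2, b, mem_singleton_self _, subset_union_right.trans j4⟩
    rw [this]
    exact fill_single _ (by omega)

theorem good_up (hx : Gen A k x) {s g : ℕ} (hI : Fintype.card I = s)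
    (hP : Fintype.card P = 2 * s + g) (hA : ∀ j, (A j).card = s) (hg : 1 ≤ g) (hm : g ≤ m)
    (hB : ∀ y ∈ Gr (OC (Fc A x)) (m + 2), bd y ∈ B)
    (hv : ∀ v, Good B m {J | J ∈ Fc A x ∧ ∀ j ∈ J, v ∈ A j}) (n : ℕ) :
    ∀ S : Finset (Finset I), S.card = n → (∀ G ∈ S, G.Nonempty) → Good B m (Up A x S) := by
  classical
  induction n using Nat.strong_induction_on with
  | h n ih =>
  suffices H : ∀ p, ∀ S : Finset (Finset I), (univ.filter (· ∈ Up A x S)).card = p → S.card = n →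
      (∀ G ∈ S, G.Nonempty) → Good B m (Up A x S) from fun S => H _ S rfl
  intro p
  induction p using Nat.strong_induction_on with
  | h p ih2 =>
  intro S hp hn hS
  have hmin : ∀ S' : Finset (Finset I), (∀ G ∈ S', G.Nonempty) → S'.card < n →
      Good B m (Up A x S') := fun S' h1 h2 => ih _ h2 S' rfl h1
  by_contra hbad
  have low := span_lower hx S (fun v => ?_) fun j Y hY h1 h2 => ?_
  · have hat : ∀ G : Finset I, ∃ b : Finset I, G.Nonempty → (b.Nonempty ∧ cl A x b = b ∧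
        b ⊆ cl A x G) ∧ ∀ b', b'.Nonempty → cl A x b' = b' → b' ⊆ b → b' = b := by
      intro G
      by_cases h : G.Nonempty
      · obtain ⟨b, b1, b2⟩ := exists_min_image
          (univ.filter fun b : Finset I => b.Nonempty ∧ cl A x b = b ∧ b ⊆ cl A x G) card
          ⟨cl A x G, mem_filter.mpr ⟨mem_univ _, h.mono (subset_cl G), cl_cl G, Subset.rfl⟩⟩
        exact ⟨b, fun _ => ⟨(mem_filter.mp b1).2, fun b' c1 c2 c3 => eq_of_subset_of_card_le c3
          (b2 b' (mem_filter.mpr ⟨mem_univ _, c1, c2, c3.trans (mem_filter.mp b1).2.2.2⟩))⟩⟩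
      · exact ⟨∅, fun h' => absurd h' h⟩
    choose β hβ using hat
    have hb : ∀ b ∈ S.image β, (b.Nonempty ∧ cl A x b = b) ∧
        ∀ b', b'.Nonempty → cl A x b' = b' → b' ⊆ b → b' = b := by
      intro b hb
      obtain ⟨G, hG, rfl⟩ := mem_image.mp hb
      exact ⟨⟨(hβ G (hS G hG)).1.1, (hβ G (hS G hG)).1.2.1⟩, (hβ G (hS G hG)).2⟩
    have up := upper hx hI hP hA hg hm hB (S := S.image β) (fun b h => (hb b h).1.1)
      (fun b h => (hb b h).1.2) (fun b h b' h' hne => by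
        by_contra hd
        have h1 : (b ∩ b').Nonempty := not_disjoint_iff_nonempty_inter.mp hd
        have h2 : cl A x (b ∩ b') = b ∩ b' := Subset.antisymm (subset_inter
          ((cl_mono inter_subset_left).trans (hb b h).1.2.le)
          ((cl_mono inter_subset_right).trans (hb b' h').1.2.le)) (subset_cl _)
        exact hne (((hb b h).2 _ h1 h2 inter_subset_left).symm.trans
          ((hb b' h').2 _ h1 h2 inter_subset_right)))
      (fun S' h1 h2 => hmin S' h1 (lt_of_lt_of_le h2 (hn ▸ card_image_le)))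
      (fun h => hbad (h.mono (up_mono fun G hG =>
        ⟨β G, mem_image_of_mem β hG, (hβ G (hS G hG)).1.2.2⟩)))
    have hle : S.sup (Kr A x) ≤ (S.image β).sup (Kr A x) := Finset.sup_le fun G hG =>
      ((Kr_cl G).ge.trans (Kr_anti (hβ G (hS G hG)).1.2.2)).trans (le_sup (mem_image_of_mem β hG))
    have := Submodule.finrank_mono hle
    omega
  · by_contra hc
    push Not at hc
    refine hbad ((good_rel hB (T' := {J | J ∈ Fc A x ∧ ∃ j ∈ J, v ∈ A j}) (fun J hJ => hJ.1)
      (rel_down _ ?_ (fun J => J.filter fun j => v ∈ A j) ?_) (hv v)).mono ?_)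
    · rintro J ⟨h1, h2⟩
      obtain ⟨j, hj⟩ := h1.1
      exact ⟨h1, j, hj, h2 j hj⟩
    · rintro J ⟨h1, j, hj, h2⟩ -
      exact ⟨⟨⟨⟨j, mem_filter.mpr ⟨hj, h2⟩⟩, fun h => h1.2 (eq_bot_iff.mpr
        (h ▸ Kr_anti (filter_subset _ _)))⟩, fun i hi => (mem_filter.mp hi).2⟩, filter_subset _ _,
        fun a ha h i hi => mem_filter.mpr ⟨h hi, ha.2 i hi⟩⟩
    · intro J hJ
      refine ⟨up_sub hS hJ, ?_⟩
      obtain ⟨j1, -, G, j2, j3⟩ := hJ
      obtain ⟨j, h1, h2⟩ := hc G j2
      exact ⟨j, j1 ▸ cl_mono j3 h1, h2⟩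
  · by_contra hc
    push Not at hc
    set Sj := S.filter fun G => j ∉ cl A x G with hSj
    have key : ∀ Y₁ Y₂ : Finset (Finset I), Y₁ ⊆ Sj → Y₂ = Sj \ Y₁ → Y₁.Nonempty → Y₂.Nonempty →
        (∀ G ∈ Y₁, ∀ G' ∈ Y₂, j ∈ cl A x (G ∪ G')) → Good B m (Up A x (insert {j} Y₁)) := by
      intro Y₁ Y₂ y1 y2 y3 y4 y5
      have hne : ∀ G ∈ Y₁, G.Nonempty := fun G hG => hS G (mem_filter.mp (y1 hG)).1
      by_cases hlt : Y₁.card + 1 < n
      · exact hmin _ (by simpa using hne) (lt_of_le_of_lt (card_insert_le _ _) hlt)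
      exfalso
      obtain ⟨G', hG'⟩ := y4
      obtain ⟨g1, g2⟩ := mem_sdiff.mp (y2 ▸ hG')
      obtain ⟨g3, g4⟩ := mem_filter.mp g1
      have eS : insert G' Y₁ = S := eq_of_subset_of_card_le
        (insert_subset g3 (y1.trans (filter_subset _ _))) (by rw [card_insert_of_notMem g2]; omega)
      have hcard : (insert (insert j G') Y₁).card = n := by
        rw [card_insert_of_notMem fun h => (mem_filter.mp (y1 h)).2
          (subset_cl _ (mem_insert_self _ _)), ← hn, ← eS, card_insert_of_notMem g2]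
      have hsub : Up A x (insert (insert j G') Y₁) ⊆ Up A x S := up_mono fun G hG => by
        rcases mem_insert.mp hG with rfl | h
        · exact ⟨G', g3, (subset_insert _ _).trans (subset_cl _)⟩
        · exact ⟨G, (mem_filter.mp (y1 h)).1, subset_cl G⟩
      refine hbad (good_split (S₁ := insert (insert j G') Y₁) (S₂ := {G'}) (fun G hG => ?_) ?_
        (ih2 _ ?_ _ rfl hcard (by simpa using hne)) (good_single hB (hS G' g3)))
      · rcases mem_insert.mp (eS ▸ hG) with rfl | h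
        · exact Or.inr ⟨G, mem_singleton_self _, subset_cl _⟩
        · exact Or.inl ⟨G, mem_insert_of_mem h, subset_cl _⟩
      · have : Up A x (insert (insert j G') Y₁) ∩ Up A x {G'} = Up A x {insert j G'} := by
          ext J
          constructor
          · rintro ⟨⟨j1, j2, G, j3, j4⟩, -, -, b', j5, j6⟩
            rw [mem_singleton.mp j5] at j6
            refine ⟨j1, j2, _, mem_singleton_self _, ?_⟩
            rcases mem_insert.mp j3 with rfl | h
            · exact j4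
            · exact insert_subset (j1 ▸ cl_mono (union_subset j4 j6) (y5 G h G' hG')) j6
          · rintro ⟨j1, j2, G, j3, j4⟩
            rw [mem_singleton.mp j3] at j4
            exact ⟨⟨j1, j2, _, mem_insert_self _ _, j4⟩,
              j1, j2, G', mem_singleton_self _, (subset_insert _ _).trans j4⟩
        rw [this]
        exact fill_single _ (by omega)
      · rw [← hp]
        refine card_lt_card ⟨fun J hJ => mem_filter.mpr ⟨mem_univ _, hsub (mem_filter.mp hJ).2⟩,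
          fun h => ?_⟩
        have h1 : cl A x G' ∈ Up A x S := ⟨cl_cl _, fun h0 => g4 (mem_cl.mpr fun c hc v _ => by
          rw [← Kr_cl, h0] at hc
          rw [(Submodule.mem_bot k).mp hc]
          rfl), G', g3, subset_cl _⟩
        obtain ⟨-, -, G, j3, j4⟩ := (mem_filter.mp (h (mem_filter.mpr ⟨mem_univ _, h1⟩))).2
        rcases mem_insert.mp j3 with rfl | h
        · exact g4 (j4 (mem_insert_self _ _))
        · exact g4 (cl_cl (A := A) (x := x) G' ▸
            cl_mono (union_subset j4 (subset_cl _)) (y5 G h G' hG'))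
    have e : Sj \ (Sj \ Y) = Y := Finset.sdiff_sdiff_eq_self hY
    have k1 := key Y (Sj \ Y) hY rfl h1 h2 hc
    have k2 := key (Sj \ Y) Y sdiff_subset e.symm h2 h1 fun G hG G' hG' => by
      rw [union_comm]; exact hc G' hG' G hG
    refine hbad (good_split (fun G hG => ?_) ?_ k1 k2)
    · by_cases h : j ∈ cl A x G
      · exact Or.inl ⟨{j}, mem_insert_self _ _, singleton_subset_iff.mpr h⟩
      · by_cases h' : G ∈ Y
        · exact Or.inl ⟨G, mem_insert_of_mem h', subset_cl G⟩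
        · exact Or.inr ⟨G, mem_insert_of_mem (mem_sdiff.mpr ⟨mem_filter.mpr ⟨hG, h⟩, h'⟩),
            subset_cl G⟩
    · have : Up A x (insert {j} Y) ∩ Up A x (insert {j} (Sj \ Y)) = Up A x {{j}} := by
        ext J
        constructor
        · rintro ⟨⟨j1, j2, G, j3, j4⟩, -, -, G', j5, j6⟩
          refine ⟨j1, j2, _, mem_singleton_self _, ?_⟩
          rcases mem_insert.mp j3 with rfl | h
          · exact j4
          rcases mem_insert.mp j5 with rfl | h'
          · exact j6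
          exact singleton_subset_iff.mpr (j1 ▸ cl_mono (union_subset j4 j6) (hc G h G' h'))
        · rintro ⟨j1, j2, G, j3, j4⟩
          rw [mem_singleton.mp j3] at j4
          exact ⟨⟨j1, j2, _, mem_insert_self _ _, j4⟩, j1, j2, _, mem_insert_self _ _, j4⟩
      rw [this]
      exact fill_single _ (by omega)

theorem good_all (hx : Gen A k x) {s g : ℕ} (hI : Fintype.card I = s)
    (hP : Fintype.card P = 2 * s + g) (hA : ∀ j, (A j).card = s) (hg : 1 ≤ g) (hm : g ≤ m)
    (hB : ∀ y ∈ Gr (OC (Fc A x)) (m + 2), bd y ∈ B)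
    (hv : ∀ v, Good B m {J | J ∈ Fc A x ∧ ∀ j ∈ J, v ∈ A j}) : Good B m (Fc A x) := by
  have hS : ∀ G ∈ (univ : Finset I).image fun j => ({j} : Finset I), G.Nonempty := by simp
  refine good_rel hB (fun _ h => h) (rel_up _ (up_sub hS) (cl A x) ?_)
    (good_up hx hI hP hA hg hm hB hv _ _ rfl hS)
  rintro J ⟨⟨j, hj⟩, h2⟩ -
  exact ⟨⟨cl_cl J, by rwa [Kr_cl], {j}, mem_image_of_mem _ (mem_univ j),
    singleton_subset_iff.mpr (subset_cl J hj)⟩, subset_cl J, fun a ha h => ha.1 ▸ cl_mono h⟩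

end Pool.Agent.Lib.MP_4a6af7_co.Cyc
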