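import Mathlib
import Pool.Agent.Lib.MP_4a6af7_co.Lin.Sharp
import Pool.Agent.Lib.MP_4a6af7_co.Cyc.Rel

/-! Tagged edge sets: labels and links. -/

set_option autoImplicit false

namespace Pool.Agent.Lib.MP_4a6af7_co.Cyc

open Pool.Agent.Shared.Mod2 Finset Sum Pool.Agent.Lib.MP_4a6af7_co.Lin

theorem Rel.acyc' {α : Type} [DecidableEq α] {r : ℕ} {Z X : Set (Finset α)} (hZ : Z ⊆ X)
    (h : Rel r Z X) (hX : Acyc r Z) : Acyc r X := by
  intro k hk x hx h0
  obtain ⟨c, hc, τ, hτ, e⟩ := h k hk.le x hx (h0 ▸ zero_mem _)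
  rw [e, map_add, bd_bd, add_zero] at h0
  obtain ⟨d, hd, e'⟩ := hX k hk c hc h0
  exact ⟨d + τ, add_mem (Gr.mono hZ _ hd) hτ, by rw [map_add, e', e]⟩

/-- A single long cycle with kept extra elements. -/
theorem cycle_ac' {E V : Type} [DecidableEq E] [DecidableEq V] {π : E → Sym2 V}
    {N : Finset E → Prop} (hN : ∀ a b, a ⊆ b → N a → N b) {n q g : ℕ} (hg : 2 * n + q ≤ g + 1)
    (hn : n < g) (K₀ : Finset E) (H : ∀ a, K₀ ⊆ a → (N a ↔ Big π n (a \ K₀)))
    (F : Finset (Sym2 V)) (hF : g ≤ F.card)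
    (hF' : ∀ c ∈ F, ∀ S ⊆ F.erase c, S.Nonempty → Leaf S) (s : ℕ) :
    ∀ T K M : Finset E, (T \ K).card = s → (T \ K₀).image π = F → K₀ ⊆ K → K ⊆ T → K ⊆ K₀ ∪ M →
      M ⊆ T \ K₀ → IsMat π M → M.card = n → Ac q (PK N T K) := by
  have hcount : ∀ T M : Finset E, (T \ K₀).image π = F → M.card = n →
      g ≤ ((T \ K₀) \ M).card + n := by
    intro T M h1 h2
    have := card_image_le (s := T \ K₀) (f := π)
    have := le_card_sdiff M (T \ K₀)
    rw [h1] at *
    omega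
  induction s with
  | zero =>
    intro T K M hs h1 _ _ h5 _ _ h8
    have h9 := hcount T M h1 h8
    have : (T \ K₀) \ M ⊆ T \ K := fun x hx => by
      obtain ⟨x1, x2⟩ := mem_sdiff.mp hx
      exact mem_sdiff.mpr ⟨(mem_sdiff.mp x1).1,
        fun h => (mem_union.mp (h5 h)).elim (mem_sdiff.mp x1).2 x2⟩
    have := card_le_card this
    omega
  | succ s ih =>
    intro T K M hs h1 h3 h4 h5 h6 h7 h8
    rcases (M \ K).eq_empty_or_nonempty with h | ⟨e, he⟩
    · obtain ⟨x, hx⟩ : (T \ K).Nonempty := card_pos.mp (by omega)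
      exact PK.done ((H K h3).mpr ⟨M, fun y hy => mem_sdiff.mpr
        ⟨sdiff_eq_empty_iff_subset.mp h hy, (mem_sdiff.mp (h6 hy)).2⟩, h7, h8⟩)
        ⟨h4, fun h => (mem_sdiff.mp hx).2 (h (mem_sdiff.mp hx).1)⟩ _
    obtain ⟨heM, heK⟩ := mem_sdiff.mp he
    have he0 : e ∈ T \ K₀ := h6 heM
    have heT := (mem_sdiff.mp he0).1
    have hc : e ∈ T \ K := mem_sdiff.mpr ⟨heT, heK⟩
    rcases q with _ | q
    · exact Ac.zero _
    refine PK.step hN heT heK h4 ?_ fun hb => ?_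
    · exact ih T (insert e K) M (by rw [sdiff_insert, card_erase_of_mem hc]; omega) h1
        (h3.trans (subset_insert _ _)) (insert_subset heT h4)
        (insert_subset (mem_union_right _ heM) h5) h6 h7 h8
    by_cases htw : ∃ e' ∈ T \ K₀, e' ≠ e ∧ π e' = π e
    · obtain ⟨e', e1, e2, e3⟩ := htw
      have hnm : ∀ f ∈ M.erase e, ∀ v, v ∈ π e' → v ∉ π f := fun f hf v hv =>
        h7 e heM f (mem_of_mem_erase hf) (ne_of_mem_erase hf).symm v (e3 ▸ hv)
      refine (ih (T.erase e) K (insert e' (M.erase e))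
        (by rw [erase_sdiff_comm, card_erase_of_mem hc]; omega) ?_ h3 (subset_erase.mpr ⟨h4, heK⟩)
        (fun x hx => ?_) (by
          rw [erase_sdiff_comm]
          exact insert_subset (mem_erase.mpr ⟨e2, e1⟩) (erase_subset_erase _ h6))
        ((h7.mono (erase_subset _ _)).insert hnm) ?_).le (by omega)
      · rw [← h1, erase_sdiff_comm]
        refine Subset.antisymm (image_subset_image (erase_subset _ _)) fun c hc => ?_
        obtain ⟨x, hx, rfl⟩ := mem_image.mp hc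
        by_cases hxe : x = e
        · exact mem_image.mpr ⟨e', mem_erase.mpr ⟨e2, e1⟩, by rw [e3, hxe]⟩
        · exact mem_image_of_mem π (mem_erase.mpr ⟨hxe, hx⟩)
      · rcases mem_union.mp (h5 hx) with h | h
        · exact mem_union_left _ h
        · exact mem_union_right _ (mem_insert_of_mem (mem_erase.mpr ⟨fun h' => heK (h' ▸ hx), h⟩))
      · rw [card_insert_of_notMem fun h => hnm e' h _ (Sym2.out_fst_mem _) (Sym2.out_fst_mem _),
          card_erase_add_one heM, h8]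
    · refine (forest_ac (π := π) hN _ (T.erase e) K (T.erase e \ K₀) n le_rfl sdiff_subset
        (fun x hx => ?_) (subset_erase.mpr ⟨h4, heK⟩) (fun a a1 a2 => ?_)
        (fun S hS hne => ?_) hb).le ?_
      · by_contra h
        exact (mem_sdiff.mp hx).2 (mem_sdiff.mpr ⟨(mem_sdiff.mp hx).1, fun h' => h (h3 h')⟩)
      · rw [H a (h3.trans a1), ← inter_sdiff_assoc, inter_eq_left.mpr a2]
      · refine hF' (π e) (h1 ▸ mem_image_of_mem π he0) S (fun c hc => ?_) hne
        obtain ⟨x, hx, rfl⟩ := mem_image.mp (hS hc)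
        rw [erase_sdiff_comm] at hx
        exact mem_erase.mpr ⟨fun h => htw ⟨x, mem_of_mem_erase hx, ne_of_mem_erase hx, h⟩,
          h1 ▸ mem_image_of_mem π (mem_of_mem_erase hx)⟩
      · have h9 := hcount T M h1 h8
        have : (T \ K₀) \ M ⊆ T.erase e \ K := fun x hx => by
          obtain ⟨x1, x2⟩ := mem_sdiff.mp hx
          exact mem_sdiff.mpr ⟨mem_erase.mpr ⟨fun h => x2 (h ▸ heM), (mem_sdiff.mp x1).1⟩,
            fun h => (mem_union.mp (h5 h)).elim (mem_sdiff.mp x1).2 x2⟩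
        have := card_le_card this
        omega

variable {I P V : Type} [Fintype I] [DecidableEq I] [Fintype P] [DecidableEq P] [DecidableEq V]
  (π : P → Sym2 V) (A : I → Finset P) (Γ : Finset I → Prop)

/-- Usable positions of a tagged set. -/
def Gd (y : Finset (I ⊕ I × P)) (v : P) : Prop :=
  (∃ j, inl j ∈ y ∧ inr (j, v) ∈ y) ∨ (¬ Γ y.toLeft ∧ ∀ j, v ∈ A j → inr (j, v) ∈ y)

/-- Big tagged sets. -/
def NN (y : Finset (I ⊕ I × P)) : Prop :=
  ∃ T : Finset P, (∀ v ∈ T, Gd A Γ y v) ∧ IsMat π T ∧ T.card = Fintype.card I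

/-- Big tagged sets of valid edges that miss a position. -/
def X0 : Set (Finset (I ⊕ I × P)) :=
  {y | (∀ j v, inr (j, v) ∈ y → v ∈ A j) ∧ NN π A Γ y ∧ ∃ v, ∀ j, inr (j, v) ∉ y}

/-- Neighbourhoods of sets of rows. -/
def nb (y : Finset (I ⊕ I × P)) (D : Finset I) : Finset P :=
  univ.filter fun v => ∃ j ∈ D, inr (j, v) ∈ y

/-- All tags are present and every set of rows has a surplus. -/
def Top (y : Finset (I ⊕ I × P)) : Prop :=
  (∀ j, inl j ∈ y) ∧ ∀ D : Finset I, D.Nonempty → D.card + 1 ≤ (nb y D).card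

/-- Admissible labels. -/
def QL (y : Finset (I ⊕ I × P)) (j : I) : Prop :=
  ∀ D, j ∈ D → (nb y D).card ≤ D.card → ∃ D' ⊆ D.erase j, (nb y D').card < D'.card

/-- The hypotheses on the complex of faces. -/
structure Face : Prop where
  down : ∀ J J', J ⊆ J' → Γ J' → Γ J
  hall : ∀ J, ¬ Γ J → ∀ Y : Finset P, (∀ j ∈ J, ∀ v ∈ A j, v ∉ Y) →
    Y.card ≤ (univ.filter fun j => ∃ v ∈ Y, v ∈ A j).card

variable {π A Γ}

omit [Fintype I] [DecidableEq I] [DecidableEq V] in
theorem mem_nb {y : Finset (I ⊕ I × P)} {D : Finset I} {v : P} [DecidableEq I] :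
    v ∈ nb y D ↔ ∃ j ∈ D, inr (j, v) ∈ y := by simp [nb]

omit [Fintype I] in
theorem nb_mono {y y' : Finset (I ⊕ I × P)} {D D' : Finset I} (h : y ⊆ y') (h' : D ⊆ D') :
    nb y D ⊆ nb y' D' := fun _ hv =>
  let ⟨j, h1, h2⟩ := mem_nb.mp hv; mem_nb.mpr ⟨j, h' h1, h h2⟩

omit [Fintype P] [DecidableEq V] in
theorem NN.mono (hΓ : Face A Γ) (a b : Finset (I ⊕ I × P)) (h : a ⊆ b) (ha : NN π A Γ a) :
    NN π A Γ b :=
  let ⟨T, h1, h2⟩ := ha
  ⟨T, fun v hv => (h1 v hv).imp (fun ⟨j, a1, a2⟩ => ⟨j, h a1, h a2⟩) fun ⟨a1, a2⟩ =>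
    ⟨fun h' => a1 (hΓ.down _ _ (toLeft_subset_toLeft h) h'), fun j hj => h (a2 j hj)⟩, h2⟩

omit [Fintype P] in
theorem Gd.edge (hΓ : Face A Γ) {y : Finset (I ⊕ I × P)} {v : P} (h : Gd A Γ y v) :
    ∃ j, inr (j, v) ∈ y := by
  rcases h with ⟨j, -, h⟩ | ⟨h1, h2⟩
  · exact ⟨j, h⟩
  by_contra hc
  push Not at hc
  have := hΓ.hall _ h1 {v} fun j _ w hw h => hc j (h2 j (mem_singleton.mp h ▸ hw))
  obtain ⟨j, hj⟩ := card_pos.mp (lt_of_lt_of_le (by simp) this)
  exact hc j (h2 j (by simpa using hj))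

omit [Fintype P] [DecidableEq V] in
theorem NN_iff [Nonempty I] (hΓ : Face A Γ) (v₀ : P) (a : Finset (I ⊕ I × P)) (h : univ.image inl ⊆ a) :
    NN π A Γ a ↔ Big (Sum.elim (fun _ => π v₀) fun p : I × P => π p.2) (Fintype.card I)
      (a \ univ.image inl) := by
  constructor
  · rintro ⟨T, h1, h2, h3⟩
    choose! f hf using fun v hv => (h1 v hv).edge hΓ
    refine ⟨T.image fun v => inr (f v, v), fun e he => ?_, fun e he e' he' hne => ?_, ?_⟩
    · obtain ⟨v, hv, rfl⟩ := mem_image.mp he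
      exact mem_sdiff.mpr ⟨hf v hv, by simp⟩
    · obtain ⟨v, hv, rfl⟩ := mem_image.mp he
      obtain ⟨w, hw, rfl⟩ := mem_image.mp he'
      exact h2 v hv w hw fun e => hne (by rw [e])
    · rw [card_image_of_injective _ fun v w e => congrArg Prod.snd (inr_injective e), h3]
  · rintro ⟨M, h1, h2, h3⟩
    have hM : ∀ e ∈ M, ∃ j v, e = inr (j, v) := by
      rintro (j | ⟨j, v⟩) he
      · exact absurd (mem_image_of_mem inl (mem_univ j)) (mem_sdiff.mp (h1 he)).2
      · exact ⟨j, v, rfl⟩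
    refine ⟨M.image (Sum.elim (fun _ => v₀) Prod.snd), fun v hv => ?_, fun v hv w hw hne => ?_, ?_⟩
    · obtain ⟨e, he, rfl⟩ := mem_image.mp hv
      obtain ⟨j, v, rfl⟩ := hM e he
      exact Or.inl ⟨j, h (mem_image_of_mem inl (mem_univ j)), (mem_sdiff.mp (h1 he)).1⟩
    · obtain ⟨e, he, rfl⟩ := mem_image.mp hv
      obtain ⟨e', he', rfl⟩ := mem_image.mp hw
      obtain ⟨j, v, rfl⟩ := hM e he
      obtain ⟨j', v', rfl⟩ := hM e' he'
      exact h2 _ he _ he' fun e => hne (by rw [e])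
    · rw [card_image_of_injOn, h3]
      intro e he e' he' heq
      by_contra hne
      obtain ⟨j, v, rfl⟩ := hM e he
      obtain ⟨j', v', rfl⟩ := hM e' he'
      obtain rfl : v = v' := heq
      exact h2 _ he _ he' hne _ (Sym2.out_fst_mem _) (Sym2.out_fst_mem _)

omit [DecidableEq V] in
theorem exists_label (hΓ : Face A Γ)
    (hno : ¬ ∃ e : I → P, (∀ j, e j ∈ A j) ∧ ∀ i j, i ≠ j → ∀ w, w ∈ π (e i) → w ∉ π (e j))
    {y : Finset (I ⊕ I × P)} (hy : y ∈ X0 π A Γ) : ∃ j, inl j ∈ y ∧ QL y j := by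
  obtain ⟨hv, ⟨T, t1, t2, t3⟩, -⟩ := hy
  obtain ⟨D₁, -, hD₁⟩ := exists_max_image univ
    (fun D : Finset I => (D.card : ℤ) - (nb y D).card) univ_nonempty
  obtain ⟨D₀, d1, d2⟩ := exists_max_image (univ.filter fun D : Finset I =>
    (D.card : ℤ) - (nb y D).card = D₁.card - (nb y D₁).card) card ⟨D₁, by simp⟩
  replace d1 := (mem_filter.mp d1).2
  by_contra hc
  have hsub : ∀ j, inl j ∈ y → j ∈ D₀ := by
    intro j hj
    by_contra hj0
    refine hc ⟨j, hj, fun D h1 h2 => ⟨D ∩ D₀, fun i hi => mem_erase.mpr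
      ⟨fun e => hj0 (e ▸ (mem_inter.mp hi).2), (mem_inter.mp hi).1⟩, ?_⟩⟩
    have e1 := card_union_add_card_inter D D₀
    have e2 := card_union_add_card_inter (nb y D) (nb y D₀)
    have e3 : (nb y (D ∪ D₀)).card ≤ (nb y D ∪ nb y D₀).card := card_le_card fun v hv => by
      obtain ⟨i, i1, i2⟩ := mem_nb.mp hv
      exact mem_union.mpr ((mem_union.mp i1).imp (fun h => mem_nb.mpr ⟨i, h, i2⟩)
        fun h => mem_nb.mpr ⟨i, h, i2⟩)
    have e4 : (nb y (D ∩ D₀)).card ≤ (nb y D ∩ nb y D₀).card := card_le_card (subset_inter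
      (nb_mono Subset.rfl inter_subset_left) (nb_mono Subset.rfl inter_subset_right))
    have e5 := hD₁ (D ∪ D₀) (mem_univ _)
    have e6 : D₀.card < (D ∪ D₀).card :=
      card_lt_card ⟨subset_union_right, fun h => hj0 (h (mem_union_left _ h1))⟩
    have e7 : ((D ∪ D₀).card : ℤ) - (nb y (D ∪ D₀)).card ≠ D₁.card - (nb y D₁).card :=
      fun h => absurd (d2 _ (mem_filter.mpr ⟨mem_univ _, h⟩)) (by omega)
    omega
  obtain ⟨f, f1, f2⟩ := (all_card_le_biUnion_card_iff_exists_injective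
    (fun v : ↥T => univ.filter fun j => v.1 ∈ A j)).mp (fun S => by
      set Y := S.map (Function.Embedding.subtype _) with hY
      set N := S.biUnion fun v : ↥T => univ.filter fun j => v.1 ∈ A j with hN
      have hN' : ∀ j, ∀ v ∈ Y, v ∈ A j → j ∈ N := fun j v h1 h2 => by
        obtain ⟨w, hw, rfl⟩ := mem_map.mp h1
        exact mem_biUnion.mpr ⟨w, hw, mem_filter.mpr ⟨mem_univ _, h2⟩⟩
      have e1 : Y.card = S.card := card_map _
      have e2 := card_sdiff_add_card_inter Y (nb y D₀)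
      have e3 := card_sdiff_add_card_inter N D₀
      have e4 := card_sdiff_add_card_inter D₀ N
      have e5 := card_sdiff_add_card_inter (nb y D₀) Y
      rw [inter_comm] at e4 e5
      have e6 := hD₁ (D₀ \ N) (mem_univ _)
      have e7 : (nb y (D₀ \ N)).card ≤ (nb y D₀ \ Y).card := card_le_card fun v h => by
        obtain ⟨j, j1, j2⟩ := mem_nb.mp h
        exact mem_sdiff.mpr ⟨mem_nb.mpr ⟨j, (mem_sdiff.mp j1).1, j2⟩,
          fun h' => (mem_sdiff.mp j1).2 (hN' j v h' (hv j v j2))⟩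
      have hs : ∀ v ∈ Y \ nb y D₀, ¬ Γ y.toLeft ∧ ∀ j, v ∈ A j → inr (j, v) ∈ y := by
        intro v h
        obtain ⟨w, -, rfl⟩ := mem_map.mp (mem_sdiff.mp h).1
        exact (t1 _ w.2).resolve_left fun ⟨j, j1, j2⟩ =>
          (mem_sdiff.mp h).2 (mem_nb.mpr ⟨j, hsub j j1, j2⟩)
      have e8 : (Y \ nb y D₀).card ≤ (N \ D₀).card := by
        rcases (Y \ nb y D₀).eq_empty_or_nonempty with h | ⟨v, h⟩
        · simp [h]
        refine (hΓ.hall _ (hs v h).1 _ fun j hj w hw h' => (mem_sdiff.mp h').2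
          (mem_nb.mpr ⟨j, hsub j (mem_toLeft.mp hj), (hs w h').2 j hw⟩)).trans (card_le_card ?_)
        intro j hj
        obtain ⟨w, w1, w2⟩ := (mem_filter.mp hj).2
        exact mem_sdiff.mpr ⟨hN' j w (mem_sdiff.mp w1).1 w2,
          fun h' => (mem_sdiff.mp w1).2 (mem_nb.mpr ⟨j, h', (hs w w1).2 j w2⟩)⟩
      omega)
  have hb := (Fintype.bijective_iff_injective_and_card f).mpr ⟨f1, by simp [t3]⟩
  choose e he using hb.2
  exact hno ⟨fun j => (e j).1, fun j => by simpa [he j] using f2 (e j), fun i j hij =>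
    t2 _ (e i).2 _ (e j).2 fun h => hij (by rw [← he i, ← he j, Subtype.ext h])⟩

omit [Fintype I] in
theorem chain_surplus {T : Set (Finset (I ⊕ I × P))} {c : Finset (Finset (I ⊕ I × P))}
    (hc : c ∈ OC T) (lab : Finset (I ⊕ I × P) → I) (hl : ∀ y ∈ c, QL y (lab y)) (D : Finset I) :
    D.Nonempty → ∀ y, (∀ j ∈ D, ∃ y' ∈ c, y' ⊆ y ∧ lab y' = j) → D.card + 1 ≤ (nb y D).card := by
  induction D using Finset.strongInduction with
  | H D ih =>
    rintro ⟨j, hj⟩ y h
    by_contra hn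
    obtain ⟨y₁, h1, h2⟩ := chain_max (P := T) (c := c.filter fun y' => y' ⊆ y ∧ lab y' ∈ D)
      (fun a ha => ⟨(hc a (mem_filter.mp ha).1).1,
        fun b hb => (hc a (mem_filter.mp ha).1).2 b (mem_filter.mp hb).1⟩)
      (let ⟨y', a1, a2, a3⟩ := h j hj; ⟨y', mem_filter.mpr ⟨a1, a2, a3 ▸ hj⟩⟩)
    obtain ⟨h3, h4, h5⟩ := mem_filter.mp h1
    have e := card_le_card (nb_mono h4 (Subset.refl D))
    obtain ⟨D', d1, d2⟩ := hl y₁ h3 D h5 (by omega)
    have := ih D' (Finset.ssubset_of_subset_of_ssubset d1 (erase_ssubset h5))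
      (card_pos.mp (by omega)) y₁ fun i hi => by
        have hi' := mem_of_mem_erase (d1 hi)
        obtain ⟨y', a1, a2, a3⟩ := h i hi'
        exact ⟨y', a1, h2 y' (mem_filter.mpr ⟨a1, a2, a3 ▸ hi'⟩), a3⟩
    omega

theorem top_link [Nonempty I] (hΓ : Face A Γ) (hπ : Function.Injective π)
    (hF : ∀ c ∈ univ.image π, ∀ S ⊆ (univ.image π).erase c, S.Nonempty → Leaf S)
    {y : Finset (I ⊕ I × P)} (hy : y ∈ X0 π A Γ) (ht : Top y) (n : ℕ) :
    ∀ T K : Finset (I ⊕ I × P), (T.toLeft \ K.toLeft).card = n → K ⊆ T →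
      (∀ p, inr p ∈ T ↔ inr p ∈ y) → (∀ p, inr p ∉ K) → NN π A Γ T →
      Ac (Fintype.card I) (PK (NN π A Γ) T K) := by
  obtain ⟨-, -, v₀, hv₀⟩ := hy
  induction n with
  | zero =>
    intro T K hn h1 h2 h3 hT
    have h4 : ∀ j, inl j ∈ T → inl j ∈ K := fun j hj => mem_toLeft.mp
      (sdiff_eq_empty_iff_subset.mp (card_eq_zero.mp hn) (mem_toLeft.mpr hj))
    by_cases hall : ∀ j, inl j ∈ T
    · have h5 : univ.image inl ⊆ K := fun e he => by
        obtain ⟨j, -, rfl⟩ := mem_image.mp he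
        exact h4 j (hall j)
      refine (forest_ac (π := Sum.elim (fun _ => π v₀) fun p : I × P => π p.2) (NN.mono hΓ) _ T K
        (T \ univ.image inl) (Fintype.card I) le_rfl sdiff_subset (fun e he => ?_) h1
        (fun a a1 a2 => ?_) (fun S hS hne => ?_) hT).le ?_
      · by_contra h
        exact (mem_sdiff.mp he).2 (mem_sdiff.mpr ⟨(mem_sdiff.mp he).1, fun h' => h (h5 h')⟩)
      · rw [NN_iff hΓ v₀ a (h5.trans a1), ← inter_sdiff_assoc, inter_eq_left.mpr a2]
      · refine hF (π v₀) (mem_image_of_mem π (mem_univ _)) S (fun c hc => ?_) hne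
        obtain ⟨e, he, rfl⟩ := mem_image.mp (hS hc)
        rcases e with j | ⟨j, v⟩
        · exact absurd (mem_image_of_mem inl (mem_univ j)) (mem_sdiff.mp he).2
        · refine mem_erase.mpr ⟨fun h => hv₀ j ?_, mem_image_of_mem π (mem_univ _)⟩
          rw [← hπ h]
          exact (h2 _).mp (mem_sdiff.mp he).1
      · have h6 : (univ.biUnion fun j => (nb y {j}).image fun v => (inr (j, v) : I ⊕ I × P)) ⊆
            T \ K := fun e he => by
          obtain ⟨j, -, he⟩ := mem_biUnion.mp he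
          obtain ⟨v, hv, rfl⟩ := mem_image.mp he
          obtain ⟨i, i1, i2⟩ := mem_nb.mp hv
          exact mem_sdiff.mpr ⟨(h2 _).mpr (mem_singleton.mp i1 ▸ i2), h3 _⟩
        have h7 := card_le_card h6
        rw [card_biUnion fun i _ j _ hij => disjoint_left.mpr fun e e1 e2 => by
          obtain ⟨v, -, rfl⟩ := mem_image.mp e1
          obtain ⟨w, -, e3⟩ := mem_image.mp e2
          exact hij (congrArg Prod.fst (inr_injective e3)).symm] at h7
        have h8 : ∑ _j : I, 2 ≤ ∑ j, ((nb y {j}).image fun v => (inr (j, v) : I ⊕ I × P)).card :=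
          sum_le_sum fun j _ => by
            rw [card_image_of_injective _ fun v w e => by simpa using e]
            simpa using ht.2 {j} (singleton_nonempty j)
        simp only [sum_const, card_univ, smul_eq_mul] at h8
        omega
    · have hD : (T.toLeftᶜ).Nonempty := by
        push Not at hall
        obtain ⟨j, hj⟩ := hall
        exact ⟨j, mem_compl.mpr fun h => hj (mem_toLeft.mp h)⟩
      have h5 := ht.2 _ hD
      obtain ⟨j, v, f1, f2, f3⟩ : ∃ j v, inl j ∉ T ∧ inr (j, v) ∈ T ∧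
          (Γ T.toLeft ∨ ∃ i, inl i ∈ T ∧ v ∈ A i) := by
        by_contra hc
        push Not at hc
        have h6 : ∀ v ∈ nb y T.toLeftᶜ, ¬ Γ T.toLeft ∧ ∀ i, inl i ∈ T → v ∉ A i := fun v hv => by
          obtain ⟨j, j1, j2⟩ := mem_nb.mp hv
          exact hc j v (fun h => mem_compl.mp j1 (mem_toLeft.mpr h)) ((h2 _).mpr j2)
        obtain ⟨v, hv⟩ := card_pos.mp (show 0 < (nb y T.toLeftᶜ).card by omega)
        have h7 := (hΓ.hall _ (h6 v hv).1 _ fun j hj w hw h =>
          (h6 w h).2 j (mem_toLeft.mp hj) hw).trans (card_le_card (t := T.toLeftᶜ) fun j hj => by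
            obtain ⟨w, w1, w2⟩ := (mem_filter.mp hj).2
            exact mem_compl.mpr fun h => (h6 w w1).2 j (mem_toLeft.mp h) w2)
        omega
      refine PK.spare f2 (h3 _) h1 hT ?_ _
      rintro a a1 a2 ⟨M, m1, m2⟩
      refine ⟨M, fun w hw => ?_, m2⟩
      have hne : ∀ i, inl i ∈ a → inr (i, w) ∈ a → Gd A Γ (a.erase (inr (j, v))) w :=
        fun i i1 i2 => Or.inl ⟨i, mem_erase.mpr ⟨by simp, i1⟩, mem_erase.mpr ⟨fun e => f1 (by
          obtain ⟨rfl, -⟩ : i = j ∧ w = v := by simpa using e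
          exact a2 i1), i2⟩⟩
      rcases m1 w hw with ⟨i, i1, i2⟩ | ⟨g1, g2⟩
      · exact hne i i1 i2
      by_cases hwv : w = v
      · rcases f3 with h | ⟨i, i1, i2⟩
        · exact absurd (hΓ.down _ _ (toLeft_subset_toLeft a2) h) g1
        · exact hne i (a1 (h4 i i1)) (g2 i (hwv ▸ i2))
      · refine Or.inr ⟨fun h => g1 (hΓ.down _ _ (fun i hi => ?_) h),
          fun i hi => mem_erase.mpr ⟨by simp [hwv], g2 i hi⟩⟩
        exact mem_toLeft.mpr (mem_erase.mpr ⟨by simp, mem_toLeft.mp hi⟩)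
  | succ n ih =>
    intro T K hn h1 h2 h3 hT
    obtain ⟨j, hj⟩ : (T.toLeft \ K.toLeft).Nonempty := card_pos.mp (by omega)
    have j1 := mem_toLeft.mp (mem_sdiff.mp hj).1
    have j2 : inl j ∉ K := fun h => (mem_sdiff.mp hj).2 (mem_toLeft.mpr h)
    cases hr : Fintype.card I with
    | zero => exact Ac.zero _
    | succ r =>
      refine PK.step (NN.mono hΓ) j1 j2 h1 (hr ▸ ih T _ ?_ (insert_subset j1 h1) h2 (by simpa using h3)
        hT) fun hb => (ih _ K ?_ (subset_erase.mpr ⟨h1, j2⟩) (by simpa using h2) h3 hb).le (by omega)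
      · rw [toLeft_insert_inl, sdiff_insert, card_erase_of_mem hj]; omega
      · have : (T.erase (inl j)).toLeft = T.toLeft.erase j := by ext; simp
        rw [this, erase_sdiff_comm, card_erase_of_mem hj]; omega

end Pool.Agent.Lib.MP_4a6af7_co.Cyc
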