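import Mathlib
import Pool.Agent.Lib.MP_4a6af7_co.Cyc.Tag
import Pool.Agent.Lib.MP_4a6af7_co.Cyc.Fam

/-! Rainbow matchings in a cycle. -/

set_option autoImplicit false

namespace Pool.Agent.Lib.MP_4a6af7_co.Cyc

open Pool.Agent.Shared.Mod2 Finset Sum Pool.Agent.Lib.MP_4a6af7_co.Lin

variable {I P V : Type} [Fintype I] [DecidableEq I] [Fintype P] [DecidableEq P] [DecidableEq V]
  {π : P → Sym2 V} {A : I → Finset P} {Γ : Finset I → Prop}

/-- The tagged set of a set of rows. -/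
def emb (A : I → Finset P) (J : Finset I) : Finset (I ⊕ I × P) :=
  J.disjSum (univ.filter fun p : I × P => p.1 ∈ J ∧ p.2 ∈ A p.1)

theorem inl_emb {J : Finset I} {j : I} : inl j ∈ emb A J ↔ j ∈ J := inl_mem_disjSum

theorem inr_emb {J : Finset I} {j : I} {v : P} : inr (j, v) ∈ emb A J ↔ j ∈ J ∧ v ∈ A j := by
  simp [emb]

theorem emb_inj : Function.Injective (emb A) := fun J J' h => by
  ext j
  rw [← inl_emb (A := A), h, inl_emb]

theorem emb_mono {J J' : Finset I} (h : J ⊆ J') : emb A J ⊆ emb A J' := by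
  rintro (j | ⟨j, v⟩) he
  · exact inl_emb.mpr (h (inl_emb.mp he))
  · exact inr_emb.mpr ⟨h (inr_emb.mp he).1, (inr_emb.mp he).2⟩

omit [DecidableEq V] in
theorem emb_NN (hM : ∀ j, IsMat π (A j)) (hA : ∀ j, (A j).card = Fintype.card I) {J : Finset I}
    (h : J.Nonempty) : NN π A Γ (emb A J) :=
  let ⟨j, hj⟩ := h
  ⟨A j, fun _ hv => Or.inl ⟨j, inl_emb.mpr hj, inr_emb.mpr ⟨hj, hv⟩⟩, hM j, hA j⟩

omit [DecidableEq V] in
theorem emb_X0 (hM : ∀ j, IsMat π (A j)) (hA : ∀ j, (A j).card = Fintype.card I) {J : Finset I}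
    (h : J.Nonempty) (h' : ∃ v, ∀ j ∈ J, v ∉ A j) : emb A J ∈ X0 π A Γ :=
  let ⟨v, hv⟩ := h'
  ⟨fun _ _ he => (inr_emb.mp he).2, emb_NN hM hA h, v,
    fun j he => hv j (inr_emb.mp he).1 (inr_emb.mp he).2⟩

theorem push_mem {T : Set (Finset I)} {T' : Set (Finset (I ⊕ I × P))} (h : ∀ J ∈ T, emb A J ∈ T')
    {k : ℕ} {z : Ch (Finset (Finset I))} (hz : z ∈ Gr (OC T) k) : push (emb A) z ∈ Gr (OC T') k := by
  refine mp_mem (t := {s | s ∈ OC T' ∧ s.card = k})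
    (fun c hc => ⟨fun a ha => ?_, by rw [card_image_of_injective _ emb_inj, hc.2]⟩) hz
  obtain ⟨J, hJ, rfl⟩ := mem_image.mp ha
  refine ⟨h J (hc.1 J hJ).1, fun b hb => ?_⟩
  obtain ⟨J', hJ', rfl⟩ := mem_image.mp hb
  exact ((hc.1 J hJ).2 J' hJ').imp emb_mono emb_mono

theorem X0_ac [Nonempty I] (hΓ : Face A Γ) (hπ : Function.Injective π) {g : ℕ} (hg : 1 ≤ g)
    (hP : Fintype.card P = 2 * Fintype.card I + g) (hM : ∀ j, IsMat π (A j))
    (hA : ∀ j, (A j).card = Fintype.card I)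
    (hF : ∀ c ∈ univ.image π, ∀ S ⊆ (univ.image π).erase c, S.Nonempty → Leaf S) :
    Ac (g + 1) (X0 π A Γ) := by
  classical
  obtain ⟨v₀⟩ : Nonempty P := Fintype.card_pos_iff.mp (by omega)
  let T : Set (Finset (I ⊕ I × P)) :=
    {y | (∀ j v, inr (j, v) ∈ y → v ∈ A j) ∧ NN π A Γ y ∧ univ.image inl ⊆ y}
  have h1 : Ac (g + 1) T := Ac.cone (P := T) (v := emb A univ)
    ⟨fun _ _ he => (inr_emb.mp he).2, emb_NN hM hA univ_nonempty, fun e he => by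
      obtain ⟨j, -, rfl⟩ := mem_image.mp he
      exact inl_emb.mpr (mem_univ j)⟩ (fun a ha => Or.inl (by
      rintro (j | ⟨j, v⟩) he
      · exact inl_emb.mpr (mem_univ j)
      · exact inr_emb.mpr ⟨mem_univ j, ha.1 j v he⟩)) _
  have h2 := (rel_trunc (g + 1) (univ.filter fun y => y ∈ T ∧ ∀ v, ∃ j, inr (j, v) ∈ y) T
    fun y hy => by
      obtain ⟨y1, y2⟩ := (mem_filter.mp hy).2
      refine ⟨y1, fun a ha h => mem_filter.mpr ⟨mem_univ _, ha,
        fun v => let ⟨j, hj⟩ := y2 v; ⟨j, h.1 hj⟩⟩, ?_⟩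
      obtain ⟨M, m1, m2, m3⟩ := (NN_iff hΓ v₀ y y1.2.2).mp y1.2.1
      have := cycle_ac' (q := g + 1) (g := Fintype.card P) (NN.mono hΓ) (by omega) (by omega)
        (univ.image inl) (NN_iff (π := π) hΓ v₀) (univ.image π)
        (by rw [card_image_of_injective _ hπ, card_univ]) hF _ y _ M rfl ?_ Subset.rfl y1.2.2
        subset_union_left m1 m2 m3
      · convert this using 1
        ext a
        exact ⟨fun h => ⟨h.1.2.2, h.2, h.1.2.1⟩,
          fun h => ⟨⟨fun j v he => y1.1 j v (h.2.1.1 he), h.2.2, h.1⟩, h.2.1⟩⟩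
      · refine Subset.antisymm (fun c hc => ?_) fun c hc => ?_
        · obtain ⟨e, -, rfl⟩ := mem_image.mp hc
          rcases e with j | p <;> exact mem_image_of_mem π (mem_univ _)
        · obtain ⟨v, -, rfl⟩ := mem_image.mp hc
          obtain ⟨j, hj⟩ := y2 v
          exact mem_image.mpr ⟨inr (j, v), mem_sdiff.mpr ⟨hj, by simp⟩, rfl⟩).acyc
    (OC_mono fun a ha => ha.1) h1
  have h3 : ∀ a, a ∈ {a | a ∈ T ∧ a ∉ univ.filter fun y => y ∈ T ∧ ∀ v, ∃ j, inr (j, v) ∈ y} ↔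
      a ∈ X0 π A Γ ∧ univ.image inl ⊆ a := fun a => by
    simp only [Set.mem_ofPred_eq, mem_filter, mem_univ, true_and, T, X0]
    constructor
    · rintro ⟨a1, a2⟩
      have : ¬ ∀ v, ∃ j, inr (j, v) ∈ a := fun h => a2 ⟨a1, h⟩
      push Not at this
      exact ⟨⟨a1.1, a1.2.1, this⟩, a1.2.2⟩
    · rintro ⟨⟨a1, a2, v, a3⟩, a4⟩
      exact ⟨⟨a1, a2, a4⟩, fun h => let ⟨j, hj⟩ := h.2 v; a3 j hj⟩
  have h4 := fun a ha => ((h3 a).mp ha).1
  refine (rel_up (g + 1) h4 (fun y => y ∪ univ.image inl) ?_).acyc' (OC_mono h4) h2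
  rintro y ⟨y1, y2, v, y3⟩ -
  refine ⟨(h3 _).mpr ⟨⟨fun j w he => y1 j w (by simpa using he),
    NN.mono hΓ _ _ subset_union_left y2, v, fun j he => y3 j (by simpa using he)⟩,
    subset_union_right⟩, subset_union_left, fun a ha h => union_subset h ((h3 a).mp ha).2⟩

omit [DecidableEq V] in
theorem rel_nonface (hΓ : Face A Γ) {J : Finset I} (hJ : ¬ Γ J) (r : ℕ) :
    Rel r (OC {y | y ∈ X0 π A Γ ∧ ∀ j, inl j ∈ y → j ∈ J}) (OC (X0 π A Γ)) := by
  classical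
  let P₁ : Set (Finset (I ⊕ I × P)) := {y | y ∈ X0 π A Γ ∧ ((∀ j, inl j ∈ y → j ∈ J) ∨
    ((∀ j ∈ J, inl j ∈ y) ∧ ∀ j v, inr (j, v) ∈ y → ∀ i, v ∈ A i → inr (i, v) ∈ y))}
  have h1 : {y | y ∈ X0 π A Γ ∧ ∀ j, inl j ∈ y → j ∈ J} ⊆ P₁ := fun y hy => ⟨hy.1, Or.inl hy.2⟩
  have h2 : P₁ ⊆ X0 π A Γ := fun y hy => hy.1
  refine Rel.trans (OC_mono h1) (OC_mono h2)
    (rel_down r h1 (fun y => y.filter fun e => ∀ j, e = inl j → j ∈ J) ?_)
    (rel_up r h2 (fun y => y ∪ J.disjSum (univ.filter fun p : I × P =>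
      p.2 ∈ A p.1 ∧ ∃ j, inr (j, p.2) ∈ y)) ?_)
  · rintro y ⟨⟨y1, ⟨T, t1, t2⟩, v, y3⟩, y4⟩ hn
    obtain ⟨y5, y6⟩ := y4.resolve_left fun h => hn ⟨⟨y1, ⟨T, t1, t2⟩, v, y3⟩, h⟩
    refine ⟨⟨⟨fun j w he => y1 j w (mem_filter.mp he).1, ⟨T, fun w hw => Or.inr ⟨fun h =>
      hJ (hΓ.down _ _ (fun j hj => ?_) h), fun i hi => ?_⟩, t2⟩, v,
      fun j he => y3 j (mem_filter.mp he).1⟩, fun j he => (mem_filter.mp he).2 j rfl⟩,
      filter_subset _ _, fun a ha h e he => mem_filter.mpr ⟨h he, fun j e' => ha.2 j (e' ▸ he)⟩⟩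
    · exact mem_toLeft.mpr (mem_filter.mpr ⟨y5 j hj, fun i e => inl_injective e ▸ hj⟩)
    · obtain ⟨j, hj⟩ := (t1 w hw).edge hΓ
      exact mem_filter.mpr ⟨y6 j w hj i hi, by simp⟩
  · rintro y ⟨y1, y2, v, y3⟩ hn
    have e : ∀ j w, inr (j, w) ∈ y ∪ J.disjSum (univ.filter fun p : I × P =>
        p.2 ∈ A p.1 ∧ ∃ j, inr (j, p.2) ∈ y) ↔ w ∈ A j ∧ ∃ i, inr (i, w) ∈ y := fun j w => by
      simp only [mem_union, inr_mem_disjSum, mem_filter, mem_univ, true_and]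
      exact ⟨fun h => h.elim (fun h => ⟨y1 j w h, j, h⟩) id, Or.inr⟩
    refine ⟨⟨⟨fun j w he => ((e j w).mp he).1, NN.mono hΓ _ _ subset_union_left y2, v,
      fun j he => let ⟨i, hi⟩ := ((e j v).mp he).2; y3 i hi⟩, Or.inr ⟨fun j hj =>
      mem_union_right _ (inl_mem_disjSum.mpr hj), fun j w he i hi =>
      (e i w).mpr ⟨hi, ((e j w).mp he).2⟩⟩⟩, subset_union_left, fun a ha h => ?_⟩
    obtain ⟨a1, a2⟩ := ha.2.resolve_left fun h' =>
      hn ⟨⟨y1, y2, v, y3⟩, Or.inl fun j hj => h' j (h hj)⟩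
    rintro (j | ⟨j, w⟩) he
    · exact (mem_union.mp he).elim (h ·) fun h' => a1 j (inl_mem_disjSum.mp h')
    · obtain ⟨b1, i, b2⟩ := (e j w).mp he
      exact a2 i w (h b2) j b1

theorem rainbow_cycle [Nonempty I] (hπ : Function.Injective π) {g : ℕ} (hg : 1 ≤ g)
    (hP : Fintype.card P = 2 * Fintype.card I + g) (hM : ∀ j, IsMat π (A j))
    (hA : ∀ j, (A j).card = Fintype.card I)
    (hF : ∀ c ∈ univ.image π, ∀ S ⊆ (univ.image π).erase c, S.Nonempty → Leaf S)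
    (hadj : ∀ v, ∃ v', v ≠ v' ∧ ∃ w, w ∈ π v ∧ w ∈ π v') :
    ∃ e : I → P, (∀ j, e j ∈ A j) ∧ ∀ i j, i ≠ j → ∀ w, w ∈ π (e i) → w ∉ π (e j) := by
  classical
  by_contra hno
  obtain ⟨x, hx⟩ := exists_gen A
  let Γ : Finset I → Prop := fun J => Kr A x J ≠ ⊥
  have hΓ : Face A Γ := ⟨fun J J' h h' e => h' (eq_bot_iff.mpr (e ▸ Kr_anti h)),
    fun J hJ => hall_of_bot hx (not_not.mp hJ)⟩
  have hmiss : ∀ J, Γ J → ∃ v, ∀ j ∈ J, v ∉ A j := fun J hJ => by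
    by_contra hc
    push Not at hc
    exact hJ (eq_bot_iff.mpr fun c h => funext fun v =>
      let ⟨j, j1, j2⟩ := hc v; (mem_Kr.mp h).1 j j1 v j2)
  have hFc : ∀ J ∈ Fc A x, emb A J ∈ X0 π A Γ := fun J hJ => emb_X0 hM hA hJ.1 (hmiss J hJ.2)
  obtain ⟨θ, θ1, θ2⟩ := null_htpy (X := OC (X0 π A Γ)) (OC_erase (Fc A x)) (push (emb A))
    (bd_push emb_inj) (fun k z hz => push_mem hFc hz) (fun k z hz h0 => by
      by_cases hk : k < g + 1
      · exact X0_ac hΓ hπ hg hP hM hA hF k hk _ (push_mem hFc hz)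
          (by rw [bd_push emb_inj, h0, map_zero])
      obtain ⟨m, rfl⟩ : ∃ m, k = m + 1 := ⟨k - 1, by omega⟩
      refine good_all (B := ((Gr (OC (X0 π A Γ)) (m + 1 + 1)).map bd).comap (push (emb A))) hx rfl
        hP hA hg (by omega) (fun y hy => ⟨_, push_mem hFc hy, bd_push emb_inj y⟩)
        (fun v z hz h0 => ?_) z hz h0
      rcases (univ.filter fun j => v ∈ A j).eq_empty_or_nonempty with h | h
      · rw [eq_zero_of_mem hz]
        · exact zero_mem _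
        · rintro c ⟨h1, h2⟩
          obtain ⟨a, ha⟩ := card_pos.mp (show 0 < c.card by omega)
          obtain ⟨j, hj⟩ := (h1 a ha).1.1.1
          exact notMem_empty j (h ▸ mem_filter.mpr ⟨mem_univ _, (h1 a ha).1.2 j hj⟩)
      obtain ⟨v', a1, w, a2, a3⟩ := hadj v
      obtain ⟨y, hy, e⟩ := Ac.cone
        (P := {y | y ∈ X0 π A Γ ∧ y ⊆ emb A (univ.filter fun j => v ∈ A j)})
        (v := emb A (univ.filter fun j => v ∈ A j)) ⟨emb_X0 hM hA h ⟨v', fun j hj h' =>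
          hM j v (mem_filter.mp hj).2 v' h' a1 w a2 a3⟩, Subset.rfl⟩ (fun a ha => Or.inl ha.2)
        (m + 2) (m + 1) (by omega) _ (push_mem (A := A) (fun J hJ => by
          exact ⟨hFc J hJ.1, emb_mono fun j hj => mem_filter.mpr ⟨mem_univ _, hJ.2 j hj⟩⟩) hz)
        (by rw [bd_push emb_inj, h0, map_zero])
      exact ⟨y, Gr.mono (OC_mono fun a ha => ha.1) _ hy, e⟩)
  obtain ⟨sd, sd0, sd1⟩ := exists_sd (E := I)
  choose! lab l1 l2 using fun y (hy : y ∈ X0 π A Γ) => exists_label hΓ hno hy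
  obtain ⟨c, hc, himg⟩ := sperner2 (OC (X0 π A Γ))
    (fun J => OC {y | (y ∈ X0 π A Γ ∧ ¬ Top y) ∧ ∀ j, inl j ∈ y → j ∈ J}) lab
    (fun J => J = ∅ ∨ (Γ J ∧ J ≠ univ))
    (fun J i h => h.imp (fun h => by simp [h]) fun h => ⟨hΓ.down _ _ (erase_subset _ _) h.1,
      fun e => notMem_erase i J (e ▸ mem_univ i)⟩) (Or.inl rfl)
    (fun J i => OC_mono fun y hy => ⟨hy.1, fun j hj => mem_of_mem_erase (hy.2 j hj)⟩)
    (fun J c hc y hy => (hc y hy).1.2 _ (l1 y (hc y hy).1.1.1))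
    (fun J => push (emb A) (sd J)) (fun J => θ J.card (sd J)) (by simp [sd0, push])
    (fun J hJ => by
      have h1 : ∀ a, a ⊆ J → a.Nonempty → a ∈ Fc A x ∧ a ≠ univ := fun a a1 a2 => by
        obtain ⟨b1, b2⟩ := hJ.resolve_left fun e => (a2.mono a1).ne_empty e
        exact ⟨⟨a2, hΓ.down _ _ a1 b1⟩, fun e => b2 (eq_univ_of_forall fun j => a1 (e ▸ mem_univ j))⟩
      refine ⟨push_mem (A := A) (fun a ha => by
        exact ⟨⟨hFc a (h1 a ha.1 ha.2).1, fun h => (h1 a ha.1 ha.2).2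
        (eq_univ_of_forall fun j => inl_emb.mp (h.1 j))⟩, fun j hj => ha.1 (inl_emb.mp hj)⟩)
        (sd1 J).1, θ1 _ _, ?_⟩
      rw [θ2 _ _ (Gr.mono (OC_mono fun a ha => (h1 a ha.1 ha.2).1) _ (sd1 J).1), (sd1 J).2, map_sum]
      exact congrArg _ (sum_congr rfl fun i hi => by rw [card_erase_of_mem hi]))
    (fun J hJ => by
      by_cases h : J = univ
      · subst h
        have := rel_trunc (Fintype.card I) (univ.filter fun y => y ∈ X0 π A Γ ∧ Top y) (X0 π A Γ)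
          fun y hy => by
            obtain ⟨y1, y2⟩ := (mem_filter.mp hy).2
            refine ⟨y1, fun a ha h => mem_filter.mpr ⟨mem_univ _, ha, fun j => h.1 (y2.1 j),
              fun D hD => (y2.2 D hD).trans (card_le_card (nb_mono h.1 Subset.rfl))⟩, ?_⟩
            convert top_link hΓ hπ hF y1 y2 _ y ∅ rfl (empty_subset _) (fun _ => Iff.rfl)
              (by simp) y1.2.1 using 1
            ext a
            obtain ⟨b1, -, v, b3⟩ := y1
            exact ⟨fun h => ⟨empty_subset _, h.2, h.1.2.1⟩, fun h => ⟨⟨fun j v he =>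
              b1 j v (h.2.1.1 he), h.2.2, v, fun j he => b3 j (h.2.1.1 he)⟩, h.2.1⟩⟩
        rw [card_univ]
        convert this using 2
        ext y
        simp only [Set.mem_ofPred_eq, mem_filter, mem_univ, true_and, implies_true, and_true]
        tauto
      · convert rel_nonface (π := π) hΓ (fun h' => hJ (Or.inr ⟨h', h⟩)) J.card using 2
        ext y
        exact ⟨fun h => ⟨h.1.1, h.2⟩, fun h' => ⟨⟨h'.1, fun ht =>
          h (eq_univ_of_forall fun j => h'.2 j (ht.1 j))⟩, h'.2⟩⟩) univ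
  have hsur : ∀ j, ∃ y ∈ c, lab y = j := fun j => mem_image.mp (himg ▸ mem_univ j)
  obtain ⟨y, hy, hmax⟩ := chain_max hc (let ⟨y, hy, _⟩ := hsur (Classical.arbitrary I); ⟨y, hy⟩)
  refine (hc y hy).1.1.2 ⟨fun j => ?_, fun D hD => chain_surplus hc lab
    (fun y hy => l2 y (hc y hy).1.1.1) D hD y fun j _ =>
      let ⟨y', a1, a2⟩ := hsur j; ⟨y', a1, hmax y' a1, a2⟩⟩
  obtain ⟨y', a1, rfl⟩ := hsur j
  exact hmax y' a1 (l1 y' (hc y' a1).1.1.1)

end Pool.Agent.Lib.MP_4a6af7_co.Cyc
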