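import Mathlib
import Pool.Agent.Lib.MP_4a6af7_co.Cyc.Main

/-! The edges of a cycle, indexed by their first vertex. -/

set_option autoImplicit false

namespace Pool.Agent.Lib.MP_4a6af7_co.Cyc

open Finset Pool.Agent.Lib.MP_4a6af7_co.Lin

/-- The edge from `v` to `v + 1`. -/
def ce {k : ℕ} (v : Fin (k + 3)) : Sym2 (Fin (k + 3)) := s(v, v + 1)

theorem two_ne {k : ℕ} (v : Fin (k + 3)) : v + 1 + 1 ≠ v := fun h => by
  rw [add_assoc, add_eq_left] at h
  have := congrArg Fin.val h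
  simp [Fin.val_add, Nat.mod_eq_of_lt] at this

theorem one_ne {k : ℕ} (v : Fin (k + 3)) : v ≠ v + 1 := fun h => by
  rw [eq_comm, add_eq_left] at h
  exact absurd (congrArg Fin.val h) (by simp)

theorem ce_inj {k : ℕ} : Function.Injective (ce (k := k)) := fun u v h => by
  rcases Sym2.eq_iff.mp h with h | h
  · exact h.1
  · exact absurd (by rw [h.2, ← h.1]) (two_ne u)

theorem ce_surj {k : ℕ} {e : Sym2 (Fin (k + 3))}
    (he : e ∈ (SimpleGraph.cycleGraph (k + 3)).edgeSet) : ∃ v, ce v = e := by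
  induction e using Sym2.ind with
  | _ a b =>
    rcases SimpleGraph.cycleGraph_adj.mp he with h | h
    · exact ⟨b, by rw [ce, ← h, add_sub_cancel, Sym2.eq_swap]⟩
    · exact ⟨a, by rw [ce, ← h, add_sub_cancel]⟩

theorem ce_leaf {k : ℕ} : ∀ c ∈ univ.image (ce (k := k)), ∀ S ⊆ (univ.image (ce (k := k))).erase c,
    S.Nonempty → Leaf S := by
  rintro c hc S hS ⟨e, he⟩
  obtain ⟨u, -, rfl⟩ := mem_image.mp hc
  obtain ⟨v, -, rfl⟩ := mem_image.mp (mem_of_mem_erase (hS he))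
  have key : ∃ w, ce (w + 1) ∈ S ∧ ce w ∉ S := by
    by_contra hn
    push Not at hn
    have h : ∀ m : ℕ, ∀ w : Fin (k + 3), (v - w).val = m → ce w ∈ S := fun m => by
      induction m with
      | zero => exact fun w hw => by rwa [← sub_eq_zero.mp (Fin.ext hw : v - w = 0)]
      | succ m ih =>
        refine fun w hw => hn w (ih _ ?_)
        rw [← sub_sub, Fin.coe_sub_one, if_neg fun e => by simp [e] at hw, hw]
        rfl
    exact notMem_erase _ _ (hS (h _ u rfl))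
  obtain ⟨w, h1, h2⟩ := key
  refine ⟨w + 1, w + 1 + 1, h1, fun f hf hw => ?_⟩
  obtain ⟨x, -, rfl⟩ := mem_image.mp (mem_of_mem_erase (hS hf))
  rcases Sym2.mem_iff.mp hw with h | h
  · rw [← h]; rfl
  · exact absurd (add_right_cancel h ▸ hf) h2

theorem ce_adj {k : ℕ} (v : Fin (k + 3)) : ∃ v', v ≠ v' ∧ ∃ w, w ∈ ce v ∧ w ∈ ce v' :=
  ⟨v + 1, one_ne v, v + 1, Sym2.mem_mk_right _ _, Sym2.mem_mk_left _ _⟩

/-- Rainbow independent sets in a cycle, vertices `v` standing for the edges `ce v`. -/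
theorem rainbow_pos {n k : ℕ} (h : 2 * n + 1 ≤ k + 3) (A : Fin n → Finset (Fin (k + 3)))
    (hM : ∀ j, IsMat ce (A j)) (hA : ∀ j, n ≤ (A j).card) :
    ∃ e : Fin n → Fin (k + 3), (∀ j, e j ∈ A j) ∧
      ∀ i j, i ≠ j → ∀ w, w ∈ ce (e i) → w ∉ ce (e j) := by
  rcases Nat.eq_zero_or_pos n with rfl | hn
  · exact ⟨Fin.elim0, fun j => j.elim0, fun j => j.elim0⟩
  have : Nonempty (Fin n) := ⟨⟨0, hn⟩⟩
  choose B hB hc using fun j => exists_subset_card_eq (hA j)
  obtain ⟨e, h1, h2⟩ := rainbow_cycle (A := B) ce_inj (g := k + 3 - 2 * n) (by omega)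
    (by simp only [Fintype.card_fin]; omega)
    (fun j a ha b hb => hM j a (hB j ha) b (hB j hb)) (by simpa using hc) ce_leaf ce_adj
  exact ⟨e, fun j => hB j (h1 j), h2⟩

/-- The same statement for independent sets of vertices of the cycle. -/
theorem rainbow_indep {n t : ℕ} (h : 2 * n + 1 ≤ t) (A : Fin n → Finset (Fin t))
    (hM : ∀ j, (SimpleGraph.cycleGraph t).IsIndepSet (A j)) (hA : ∀ j, n ≤ (A j).card) :
    ∃ e : Fin n → Fin t, (∀ j, e j ∈ A j) ∧
      ∀ i j, i ≠ j → e i ≠ e j ∧ ¬ (SimpleGraph.cycleGraph t).Adj (e i) (e j) := by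
  rcases Nat.eq_zero_or_pos n with rfl | hn
  · exact ⟨Fin.elim0, fun j => j.elim0, fun j => j.elim0⟩
  obtain ⟨k, rfl⟩ : ∃ k, t = k + 3 := ⟨t - 3, by omega⟩
  obtain ⟨e, h1, h2⟩ := rainbow_pos h A (fun j a ha b hb hab w h1 h2 => by
    refine hM j ha hb hab (SimpleGraph.cycleGraph_adj.mpr ?_)
    rcases Sym2.mem_iff.mp h1 with rfl | rfl <;> rcases Sym2.mem_iff.mp h2 with e | e
    · exact absurd e hab
    · exact Or.inl (by rw [e, add_sub_cancel_left])
    · exact Or.inr (by rw [← e, add_sub_cancel_left])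
    · exact absurd (add_right_cancel e) hab) hA
  refine ⟨e, h1, fun i j hij => ⟨fun e' => h2 i j hij (e i) (Sym2.mem_mk_left _ _)
    (e' ▸ Sym2.mem_mk_left _ _), fun ha => ?_⟩⟩
  rcases SimpleGraph.cycleGraph_adj.mp ha with a | a
  · exact h2 i j hij (e i) (Sym2.mem_mk_left _ _)
      (by rw [ce, ← a, add_sub_cancel]; exact Sym2.mem_mk_right _ _)
  · exact h2 i j hij (e j) (by rw [ce, ← a, add_sub_cancel]; exact Sym2.mem_mk_right _ _)
      (Sym2.mem_mk_left _ _)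

end Pool.Agent.Lib.MP_4a6af7_co.Cyc
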